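import Pool.Agent.Y798.JL.Step
import Pool.Agent.Y798.PS.NatB

/-! Joint equidistribution with the Frobenius elements and over the extensions. -/

set_option autoImplicit false
set_option linter.unusedSectionVars false

namespace Pool.Agent.Y798.JL

open Complex Filter Topology ComplexConjugate NumberField IsDedekindDomain MeasureTheory
  Pool.Agent.W540.BE Pool.Agent.TH553.RS Pool.Agent.TH553.ST Pool.Agent.W401.Cheb
open scoped Matrix ComplexOrder

section

variable {Q : Type} [Group Q] [Finite Q] [TopologicalSpace Q] [DiscreteTopology Q]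
  [MeasurableSpace Q] [BorelSpace Q] {ν : Measure Q} [IsProbabilityMeasure ν] [ν.IsHaarMeasure]

/-- the Haar measure on a finite group -/
theorem int_unif {E : Type} [NormedAddCommGroup E] [NormedSpace ℝ E] [CompleteSpace E]
    [SecondCountableTopology E] (f : Q → E) :
    ∫ g, f g ∂ν = (Nat.card Q : ℝ)⁻¹ • ∑ᶠ q, f q := by
  classical
  letI := Fintype.ofFinite Q
  have hsc : MeasurableSingletonClass Q := inferInstance
  have h1 : ∀ q : Q, ν.real {q} = ν.real {1} := by
    intro q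
    have h2 : (fun h => q⁻¹ * h) ⁻¹' ({1} : Set Q) = {q} := by
      ext h
      simp only [Set.mem_preimage, Set.mem_singleton_iff]
      rw [inv_mul_eq_one, eq_comm]
    rw [measureReal_def, measureReal_def, ← h2, measure_preimage_mul]
  have h3 : (Nat.card Q : ℝ) * ν.real {1} = 1 := by
    have h4 : ∫ _, (1 : ℝ) ∂ν = 1 := by simp
    rw [integral_fintype (intg continuous_of_discreteTopology)] at h4
    simp only [h1] at h4
    rw [Finset.sum_const, Finset.card_univ, nsmul_eq_mul, smul_eq_mul, mul_one] at h4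
    rw [Nat.card_eq_fintype_card]
    exact h4
  have h5 : ν.real {1} = (Nat.card Q : ℝ)⁻¹ := eq_inv_of_mul_eq_one_right h3
  rw [integral_fintype (intg continuous_of_discreteTopology), finsum_eq_sum_of_fintype,
    Finset.smul_sum]
  exact Finset.sum_congr rfl fun q _ => by rw [h1, h5]

end

section

variable {K : Type} [Field K] [NumberField K] {σ : HeightOneSpectrum (𝓞 K) → GK K}
  {U : Subgroup (GK K)} [U.Normal]

/-- the law of the Frobenius elements -/
theorem frob_law (hσ : ∀ v, IsFrob v (σ v)) (hU : IsOpen (U : Set (GK K)))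
    [MeasurableSpace (GK K ⧸ U)] [BorelSpace (GK K ⧸ U)] {ν : Measure (GK K ⧸ U)}
    [IsProbabilityMeasure ν] [ν.IsHaarMeasure] :
    Law (fun v => (QuotientGroup.mk (σ v) : GK K ⧸ U)) ν := by
  have hfin : Finite (GK K ⧸ U) := Subgroup.quotient_finite_of_isOpen _ hU
  have hdisc : DiscreteTopology (GK K ⧸ U) := QuotientGroup.discreteTopology hU
  intro f _ hcl
  have h1 := cheb_mean U hU (fun q => ((f q : ℝ) : ℂ)) (fun a g => by rw [hcl]) σ hσ
  have h2 := mn_of_pi h1
  have h3 := (Complex.continuous_re.tendsto _).comp h2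
  have h4 : ((Nat.card (GK K ⧸ U) : ℂ)⁻¹ * ∑ᶠ q, ((f q : ℝ) : ℂ)).re = ∫ g, f g ∂ν := by
    rw [int_unif, smul_eq_mul]
    letI := Fintype.ofFinite (GK K ⧸ U)
    rw [finsum_eq_sum_of_fintype, finsum_eq_sum_of_fintype, ← Complex.ofReal_sum,
      ← Complex.ofReal_natCast, ← Complex.ofReal_inv, ← Complex.ofReal_mul, Complex.ofReal_re]
  rw [h4] at h3
  refine h3.congr fun N => ?_
  simp only [Function.comp]
  rw [re_mn]
  congr 1

end

section

variable {K : Type} [Field K] [NumberField K]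
variable {ι : Type} [Fintype ι] [DecidableEq ι] {G : ι → Type} [∀ i, Group (G i)]
  [∀ i, TopologicalSpace (G i)] [∀ i, IsTopologicalGroup (G i)] [∀ i, CompactSpace (G i)]
  [∀ i, T2Space (G i)] [∀ i, SecondCountableTopology (G i)]
  [∀ i, MeasurableSpace (G i)] [∀ i, BorelSpace (G i)] {μ : ∀ i, Measure (G i)}
  [∀ i, IsProbabilityMeasure (μ i)] [∀ i, (μ i).IsHaarMeasure]
variable {Q : Type} [Group Q] [TopologicalSpace Q] [IsTopologicalGroup Q] [CompactSpace Q]
  [T2Space Q]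
  [MeasurableSpace Q] [BorelSpace Q] {ν : Measure Q} [IsProbabilityMeasure ν] [ν.IsHaarMeasure]
variable {x : ∀ i, HeightOneSpectrum (𝓞 K) → G i} {q : HeightOneSpectrum (𝓞 K) → Q}

/-- the averages of products of characters -/
theorem decP_mean (h : Ind μ ν x q Finset.univ) {φ : (∀ i, G i) → ℂ} (hφ : DecP φ) {η : Q → ℂ}
    (hη : Dec η) : Tendsto (mn fun v => φ (fun i => x i v) * η (q v)) atTop
      (𝓝 ((∫ g, φ g ∂(Measure.pi μ)) * ∫ g, η g ∂ν)) := by
  obtain ⟨J, _, m, ρ, a, h1, h2⟩ := hφ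
  obtain ⟨L, _, m', ψ, b, h3, h4⟩ := hη
  have e1 : ∫ g, φ g ∂(Measure.pi μ) = ∑ j, a j * ∏ i, ∫ g, chi (ρ j i) g ∂(μ i) := by
    have hc : ∀ j, Continuous fun p : (∀ i, G i) => ∏ i, chi (ρ j i) (p i) := fun j =>
      continuous_finsetProd _ fun i _ => (cont_chi (h1 j i).1).comp (continuous_apply i)
    simp only [h2]
    rw [integral_finsetSum _ fun j _ => (intg (hc j)).const_mul _]
    refine Finset.sum_congr rfl fun j _ => ?_
    rw [integral_const_mul]
    congr 1
    exact integral_fintype_prod_eq_prod (μ := μ) fun i (g : G i) => chi (ρ j i) g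
  rw [e1, int_dec h3 h4, Finset.sum_mul_sum]
  have h5 : Tendsto (fun N => ∑ j, ∑ l, (a j * b l) *
      mn (fun v => (∏ i, chi (ρ j i) (x i v)) * chi (ψ l) (q v)) N) atTop
      (𝓝 (∑ j, ∑ l, (a j * b l) *
        ((∏ i, ∫ g, chi (ρ j i) g ∂(μ i)) * ∫ g, chi (ψ l) g ∂ν))) :=
    tendsto_finsetSum _ fun j _ => tendsto_finsetSum _ fun l _ =>
      (h _ (ρ j) _ (ψ l) (h1 j) (fun i hi => absurd (Finset.mem_univ i) hi) (h3 l).1
        (h3 l).2).const_mul _
  have e2 : (∑ j, ∑ l, (a j * b l) *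
        ((∏ i, ∫ g, chi (ρ j i) g ∂(μ i)) * ∫ g, chi (ψ l) g ∂ν)) =
      ∑ j, ∑ l, (a j * ∏ i, ∫ g, chi (ρ j i) g ∂(μ i)) * (b l * ∫ g, chi (ψ l) g ∂ν) :=
    Finset.sum_congr rfl fun j _ => Finset.sum_congr rfl fun l _ => by ring
  rw [e2] at h5
  refine h5.congr fun N => ?_
  have e3 : (fun v => φ (fun i => x i v) * η (q v)) = fun v =>
      ∑ j, ∑ l, (a j * b l) * ((∏ i, chi (ρ j i) (x i v)) * chi (ψ l) (q v)) := by
    funext v
    rw [h2, h4, Finset.sum_mul_sum]
    exact Finset.sum_congr rfl fun j _ => Finset.sum_congr rfl fun l _ => by ring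
  rw [e3, mn_sum]
  refine Finset.sum_congr rfl fun j _ => ?_
  rw [mn_sum]
  exact Finset.sum_congr rfl fun l _ => (mn_mul _ _ _).symm

/-- **Joint equidistribution.** -/
theorem joint_mean (h : Ind μ ν x q Finset.univ) {f : (∀ i, G i) → ℂ} (hf : Continuous f)
    (hcl : ∀ g k, f (k * g * k⁻¹) = f g) {e : Q → ℂ} (he : Continuous e)
    (hecl : ∀ g k, e (k * g * k⁻¹) = e g) :
    Tendsto (mn fun v => f (fun i => x i v) * e (q v)) atTop
      (𝓝 ((∫ g, f g ∂(Measure.pi μ)) * ∫ g, e g ∂ν)) := by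
  obtain ⟨B, hB⟩ := (isCompact_univ (X := ∀ i, G i)).exists_bound_of_continuousOn hf.continuousOn
  obtain ⟨B', hB'⟩ := (isCompact_univ (X := Q)).exists_bound_of_continuousOn he.continuousOn
  have hBf : ∀ g, ‖f g‖ ≤ |B| := fun g => (hB g (Set.mem_univ _)).trans (le_abs_self _)
  have hBe : ∀ g, ‖e g‖ ≤ |B'| := fun g => (hB' g (Set.mem_univ _)).trans (le_abs_self _)
  refine mn_unif fun ε hε => ?_
  set C : ℝ := |B| + |B'| + 1 with hC
  have hC0 : 0 < C := by rw [hC]; positivity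
  set δ : ℝ := min 1 (ε / C) with hδ
  have hδ0 : 0 < δ := by rw [hδ]; positivity
  have hδ1 : δ ≤ 1 := min_le_left _ _
  have hδC : δ * C ≤ ε := by
    calc δ * C ≤ ε / C * C := mul_le_mul_of_nonneg_right (min_le_right _ _) hC0.le
      _ = ε := div_mul_cancel₀ _ hC0.ne'
  obtain ⟨φ, h1, h2⟩ := class_denseP hf hcl hδ0
  obtain ⟨η, h3, h4⟩ := class_dense he hecl hδ0
  have hφc : Continuous φ := h1.cont
  have hηc : Continuous η := by
    obtain ⟨J, _, m, ρ, a, h5, h6⟩ := h3
    have : η = fun g => ∑ j, a j * chi (ρ j) g := funext h6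
    rw [this]
    exact continuous_finsetSum _ fun j _ => continuous_const.mul (cont_chi (h5 j).1)
  -- the estimate
  have key : ∀ a a' b b' : ℂ, ‖a - a'‖ ≤ δ → ‖b - b'‖ ≤ δ → ‖a‖ ≤ |B| → ‖b‖ ≤ |B'| →
      ‖a * b - a' * b'‖ ≤ ε := by
    intro a a' b b' k1 k2 k3 k4
    have e1 : a * b - a' * b' = a * (b - b') + (a - a') * b' := by ring
    have k5 : ‖b'‖ ≤ |B'| + 1 := by
      have : b' = b - (b - b') := by ring
      rw [this]
      exact (norm_sub_le _ _).trans (add_le_add k4 (k2.trans hδ1))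
    rw [e1]
    calc ‖a * (b - b') + (a - a') * b'‖ ≤ ‖a * (b - b')‖ + ‖(a - a') * b'‖ := norm_add_le _ _
      _ ≤ |B| * δ + δ * (|B'| + 1) := by
          rw [norm_mul, norm_mul]
          exact add_le_add (mul_le_mul k3 k2 (norm_nonneg _) (abs_nonneg _))
            (mul_le_mul k1 k5 (norm_nonneg _) hδ0.le)
      _ = δ * C := by rw [hC]; ring
      _ ≤ ε := hδC
  have hint : ∀ {X : Type} [TopologicalSpace X] [CompactSpace X] [MeasurableSpace X]
      [BorelSpace X] (P : Measure X) [IsProbabilityMeasure P] (F F' : X → ℂ), Continuous F →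
      Continuous F' → (∀ g, ‖F g - F' g‖ ≤ δ) → ‖∫ g, F g ∂P - ∫ g, F' g ∂P‖ ≤ δ := by
    intro X _ _ _ _ P _ F F' hF hF' hFF
    rw [← integral_sub (intg hF) (intg hF')]
    refine (norm_integral_le_integral_norm _).trans ?_
    have h7 : ∫ g, ‖F g - F' g‖ ∂P ≤ ∫ _, δ ∂P :=
      integral_mono ((intg hF).sub (intg hF')).norm (integrable_const _) fun g => hFF g
    simpa using h7
  have hbd : ∀ {X : Type} [TopologicalSpace X] [CompactSpace X] [MeasurableSpace X]
      [BorelSpace X] (P : Measure X) [IsProbabilityMeasure P] (F : X → ℂ) (D : ℝ), Continuous F →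
      (∀ g, ‖F g‖ ≤ D) → ‖∫ g, F g ∂P‖ ≤ D := by
    intro X _ _ _ _ P _ F D hF hFF
    refine (norm_integral_le_integral_norm _).trans ?_
    have h7 : ∫ g, ‖F g‖ ∂P ≤ ∫ _, D ∂P :=
      integral_mono (intg hF).norm (integrable_const _) fun g => hFF g
    simpa using h7
  refine ⟨fun v => φ (fun i => x i v) * η (q v), (∫ g, φ g ∂(Measure.pi μ)) * ∫ g, η g ∂ν,
    fun v => key _ _ _ _ (h2 _) (h4 _) (hBf _) (hBe _), ?_, decP_mean h h1 h3⟩
  rw [norm_sub_rev]
  exact key _ _ _ _ (hint _ f φ hf hφc h2) (hint _ e η he hηc h4) (hbd _ f _ hf hBf)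
    (hbd _ e _ he hBe)

end

end Pool.Agent.Y798.JL
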