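import Pool.Agent.TH553.ST.Ext2

/-! Tensor products of matrices over a finite index set, and Euler products of unitary matrices. -/

set_option autoImplicit false
set_option linter.unusedSectionVars false

namespace Pool.Agent.Y798.JL

open Complex Filter Topology ComplexConjugate NumberField IsDedekindDomain MeasureTheory
  Pool.Agent.W540.BE Pool.Agent.TH553.RS Pool.Agent.TH553.ST Pool.Agent.H341R2
open scoped Matrix ComplexOrder Kronecker

section

variable {ι : Type} [Fintype ι] [DecidableEq ι] {n : ι → ℕ}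

/-- the tensor product of square matrices `A i`, `i ∈ ι` -/
def bk (A : ∀ i, Matrix (Fin (n i)) (Fin (n i)) ℂ) :
    Matrix (∀ i, Fin (n i)) (∀ i, Fin (n i)) ℂ := Matrix.of fun a b => ∏ i, A i (a i) (b i)

theorem bk_mul (A B : ∀ i, Matrix (Fin (n i)) (Fin (n i)) ℂ) :
    bk A * bk B = bk fun i => A i * B i := by
  ext a b
  rw [Matrix.mul_apply]
  change ∑ c : (∀ i, Fin (n i)), (∏ i, A i (a i) (c i)) * (∏ i, B i (c i) (b i)) =
    ∏ i, (A i * B i) (a i) (b i)
  simp only [Matrix.mul_apply, ← Finset.prod_mul_distrib]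
  rw [Finset.prod_univ_sum, Fintype.piFinset_univ]

theorem bk_one : bk (fun i => (1 : Matrix (Fin (n i)) (Fin (n i)) ℂ)) = 1 := by
  ext a b
  change ∏ i, (1 : Matrix (Fin (n i)) (Fin (n i)) ℂ) (a i) (b i) = _
  rw [Matrix.one_apply]
  split_ifs with h
  · subst h
    exact Finset.prod_eq_one fun i _ => Matrix.one_apply_eq _
  · obtain ⟨i, hi⟩ := Function.ne_iff.1 h
    exact Finset.prod_eq_zero (Finset.mem_univ i) (Matrix.one_apply_ne hi)

theorem bk_star (A : ∀ i, Matrix (Fin (n i)) (Fin (n i)) ℂ) : (bk A)ᴴ = bk fun i => (A i)ᴴ := by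
  ext a b
  change star (∏ i, A i (b i) (a i)) = ∏ i, (A i)ᴴ (a i) (b i)
  rw [star_prod]
  rfl

theorem bk_trace (A : ∀ i, Matrix (Fin (n i)) (Fin (n i)) ℂ) :
    (bk A).trace = ∏ i, (A i).trace := by
  unfold Matrix.trace
  change ∑ a : (∀ i, Fin (n i)), ∏ i, A i (a i) (a i) = ∏ i, ∑ k, A i k k
  rw [Finset.prod_univ_sum, Fintype.piFinset_univ]

theorem bk_unitary {A : ∀ i, Matrix (Fin (n i)) (Fin (n i)) ℂ}
    (h : ∀ i, A i ∈ Matrix.unitaryGroup (Fin (n i)) ℂ) :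
    bk A ∈ Matrix.unitaryGroup (∀ i, Fin (n i)) ℂ := by
  rw [Matrix.mem_unitaryGroup_iff, Matrix.star_eq_conjTranspose, bk_star, bk_mul, ← bk_one]
  congr 1
  funext i
  exact Matrix.mem_unitaryGroup_iff.1 (h i)

end

section

variable {K : Type} [Field K] [NumberField K] {κ : Type} [Fintype κ] [DecidableEq κ]

/-- the Euler product of unitary matrices -/
noncomputable def LU (A : HeightOneSpectrum (𝓞 K) → Matrix κ κ ℂ) (s : ℂ) : ℂ :=
  ∏' v, (Matrix.det (1 - (((nm K v : ℕ) : ℂ) ^ (-s)) • A v))⁻¹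

variable {A : HeightOneSpectrum (𝓞 K) → Matrix κ κ ℂ} (hA : ∀ v, A v ∈ Matrix.unitaryGroup κ ℂ)

include hA

theorem norm_tr (v : HeightOneSpectrum (𝓞 K)) : ‖(A v).trace‖ ≤ Fintype.card κ := by
  obtain ⟨α, h1, h2, -⟩ := exists_eig (hA v)
  rw [← h2]
  refine (norm_sum_le _ _).trans ?_
  simp [h1]

theorem size_LU (τ : ℝ) : (∀ᶠ ε : ℝ in 𝓝[>] 0, LU A (1 + τ * I + ε) ≠ 0) ∧
    Tendsto (fun ε : ℝ => qt (nm K) (fun v =>
      ((A v).trace * ((nm K v : ℕ) : ℂ) ^ (-(τ * I : ℂ))).re) ε -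
      Real.log ‖LU A (1 + τ * I + ε)‖ / Real.log (1 / ε)) (𝓝[>] 0) (𝓝 0) := by
  choose α h1 h2 h3 using fun v => exists_eig (hA v)
  set B : HeightOneSpectrum (𝓞 K) → Polynomial ℂ := fun v =>
    ∏ j, (1 - Polynomial.C (α v j) * Polynomial.X) with hB
  have hBe : ∀ v z, (B v).eval z = ∏ j, (1 - α v j * z) := by
    intro v z
    rw [hB]
    simp [Polynomial.eval_prod]
  exact size_unit (sysF K) α (Filter.Eventually.of_forall h1)
    (t := fun v => (A v).trace) (C := (Fintype.card κ : ℝ)) (fun v => norm_tr hA v)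
    (Filter.Eventually.of_forall h2) τ B (Filter.Eventually.of_forall hBe)
    (fun v => by
      rw [hBe, Finset.prod_ne_zero_iff]
      intro j _ h4
      have h5 : ‖α v j * ((nm K v : ℕ) : ℂ) ^ (-(1 + τ * I : ℂ))‖ = 1 := by
        have : α v j * ((nm K v : ℕ) : ℂ) ^ (-(1 + τ * I : ℂ)) = 1 := by linear_combination -h4
        rw [this, norm_one]
      rw [norm_mul, h1, one_mul] at h5
      have h6 := cpow_le_half normSys v (s := 1 + τ * I) (by simp)
      linarith) (LU A)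
    (fun s _ => by
      unfold LU
      refine tprod_congr fun v => ?_
      rw [h3, hBe])

theorem order_LU {τ : ℝ} {Λ : ℂ → ℂ} (h1 : MeromorphicAt Λ (1 + τ * I))
    (h2 : ∀ᶠ s in 𝓝 ((1 : ℂ) + τ * I), (1 : ℝ) < s.re → Λ s = LU A s) :
    ∃ m : ℤ, meromorphicOrderAt Λ (1 + τ * I) = m ∧
      Tendsto (qt (nm K) fun v => ((A v).trace * ((nm K v : ℕ) : ℂ) ^ (-(τ * I : ℂ))).re) (𝓝[>] 0)
        (𝓝 (-(m : ℝ))) := by
  obtain ⟨m, h3, h4⟩ := order_unit (size_LU hA τ).1 h1 h2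
  refine ⟨m, h3, ?_⟩
  have h5 := (size_LU hA τ).2.add h4
  rw [zero_add] at h5
  refine h5.congr fun ε => ?_
  ring

/-- averages from orders -/
theorem avg_LU (h : ∀ τ : ℝ, ∃ Λ : ℂ → ℂ, MeromorphicAt Λ (1 + τ * I) ∧
      (∀ᶠ s in 𝓝 ((1 : ℂ) + τ * I), (1 : ℝ) < s.re → Λ s = LU A s) ∧
      meromorphicOrderAt Λ (1 + τ * I) = ((0 : ℤ) : WithTop ℤ)) :
    Tendsto (mn fun v => (A v).trace) atTop (𝓝 0) := by
  choose α h1 h2 h3 using fun v => exists_eig (hA v)
  have h4 := taub h1 (L := LU A) (fun s _ => by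
    unfold LU
    exact tprod_congr fun v => by rw [h3]) (fun τ => by
    obtain ⟨Λ, h5, h6, h7⟩ := h τ
    obtain ⟨g, h10, h11, h12⟩ := (meromorphicOrderAt_eq_int_iff h5).1 h7
    refine ⟨g, h10, h11, ?_⟩
    rw [eventually_nhdsWithin_iff] at h12
    filter_upwards [h12, h6] with s h13 h14 h15
    have hne : s ≠ 1 + τ * I := by
      intro h
      rw [h] at h15
      simp at h15
    have h16 := h13 hne
    rw [zpow_zero, one_smul] at h16
    rw [← h16, h14 h15])
  refine h4.congr fun N => ?_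
  congr 1
  funext v
  exact h2 v

end

end Pool.Agent.Y798.JL
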