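import Pool.Agent.Y798.JL.Fr

/-! Joint equidistribution: over the extensions, and the converse. -/

set_option autoImplicit false
set_option linter.unusedSectionVars false

namespace Pool.Agent.Y798.JL

open Complex Filter Topology ComplexConjugate NumberField IsDedekindDomain MeasureTheory
  Pool.Agent.W540.BE Pool.Agent.TH553.RS Pool.Agent.TH553.ST Pool.Agent.W401.Cheb
open Pool.Agent.W353.NF (act fixn fixn_conj fixn_inv fixn_mul_ker fixn_le ker_act_open)
open scoped Matrix ComplexOrder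

section

variable {K : Type} [Field K] [NumberField K]
variable {ι : Type} [Fintype ι] [DecidableEq ι] {G : ι → Type} [∀ i, Group (G i)]
  [∀ i, TopologicalSpace (G i)] [∀ i, IsTopologicalGroup (G i)] [∀ i, CompactSpace (G i)]
  [∀ i, MeasurableSpace (G i)] [∀ i, BorelSpace (G i)] {μ : ∀ i, Measure (G i)}
  [∀ i, IsProbabilityMeasure (μ i)] [∀ i, (μ i).IsHaarMeasure]
  {x : ∀ i, HeightOneSpectrum (𝓞 K) → G i} {σ : HeightOneSpectrum (𝓞 K) → GK K}

/-- the hypotheses -/
structure HG (x : ∀ i, HeightOneSpectrum (𝓞 K) → G i)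
    (σ : HeightOneSpectrum (𝓞 K) → GK K) : Prop where
  fr : ∀ v, IsFrob v (σ v)
  ch : ∀ (π : ∀ i, G i →* Matrix.unitaryGroup (Fin 1) ℂ) (m : ℕ)
    (ψ : GK K →* Matrix.unitaryGroup (Fin m) ℂ), (∀ i, Continuous (π i)) →
    (∃ i g, π i g ≠ 1) → Schur ψ → m ≠ 0 →
    (∃ U : Subgroup (GK K), IsOpen (U : Set (GK K)) ∧ ∀ u ∈ U, ψ u = 1) →
    Tendsto (mn fun v => (∏ i, chi (π i) (x i v)) * chi ψ (σ v)) atTop (𝓝 0)
  cn : ∀ (n : ι → ℕ) (π : ∀ i, G i →* Matrix.unitaryGroup (Fin (n i)) ℂ) (m : ℕ)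
    (ψ : GK K →* Matrix.unitaryGroup (Fin m) ℂ), (∀ i, Continuous (π i) ∧ Schur (π i)) →
    (∀ i, n i ≠ 0) → (∃ i, 1 < n i) → Schur ψ → m ≠ 0 →
    (∃ U : Subgroup (GK K), IsOpen (U : Set (GK K)) ∧ ∀ u ∈ U, ψ u = 1) →
    ∀ τ : ℝ, ∃ Λ : ℂ → ℂ, MeromorphicAt Λ (1 + τ * I) ∧
      ∀ᶠ s in 𝓝 ((1 : ℂ) + τ * I), (1 : ℝ) < s.re → Λ s = LU (AT π x ψ σ) s

/-- the conditions on one and two characters -/
structure OK (x : ∀ i, HeightOneSpectrum (𝓞 K) → G i) : Prop where
  rs : ∀ (i : ι) (n : ℕ) (π : G i →* Matrix.unitaryGroup (Fin n) ℂ), Continuous π → Schur π →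
    1 < n → DM (fun v => ‖chi π (x i v)‖ ^ 2) 1
  nf : ∀ (i : ι) (n : ℕ) (π : G i →* Matrix.unitaryGroup (Fin n) ℂ), Continuous π → Schur π →
    1 < n → ∀ B : Finset ℝ, ¬ DM (fun v => ∏ b ∈ B, |‖chi π (x i v)‖ - b|) 0
  nc : ∀ i j, i ≠ j → ∀ (a : ℕ) (π : G i →* Matrix.unitaryGroup (Fin a) ℂ) (b : ℕ)
    (π' : G j →* Matrix.unitaryGroup (Fin b) ℂ), Continuous π → Schur π → 1 < a →
    Continuous π' → Schur π' → 1 < b →
    ¬ DM (fun v => |‖chi π (x i v)‖ ^ 2 - ‖chi π' (x j v)‖ ^ 2|) 0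

theorem HG.hy (H : HG x σ) (hnc : OK x) {U : Subgroup (GK K)} [U.Normal]
    (hU : IsOpen (U : Set (GK K))) [MeasurableSpace (GK K ⧸ U)] [BorelSpace (GK K ⧸ U)]
    {ν : Measure (GK K ⧸ U)} [IsProbabilityMeasure ν] [ν.IsHaarMeasure] :
    HY ν x (fun v => (QuotientGroup.mk (σ v) : GK K ⧸ U)) where
  rs := hnc.rs
  nf := hnc.nf
  fr := frob_law H.fr hU
  ch n π m ψ hπ hn hnt _ hψs hm := by
    obtain rfl : n = fun _ => 1 := funext hn
    refine H.ch π m (ψ.comp (QuotientGroup.mk' U)) hπ hnt (fun A hA => hψs A fun g => ?_) hm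
      ⟨U, hU, fun u hu => ?_⟩
    · obtain ⟨g', rfl⟩ := QuotientGroup.mk'_surjective U g
      exact hA g'
    · rw [MonoidHom.comp_apply, QuotientGroup.mk'_apply, (QuotientGroup.eq_one_iff u).2 hu,
        map_one]
  cn n π m ψ hπ hn hnt _ hψs hm τ := by
    refine H.cn n π m (ψ.comp (QuotientGroup.mk' U)) hπ hn hnt (fun A hA => hψs A fun g => ?_) hm
      ⟨U, hU, fun u hu => ?_⟩ τ
    · obtain ⟨g', rfl⟩ := QuotientGroup.mk'_surjective U g
      exact hA g'
    · rw [MonoidHom.comp_apply, QuotientGroup.mk'_apply, (QuotientGroup.eq_one_iff u).2 hu,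
        map_one]
  nc := hnc.nc

theorem HG.ind (H : HG x σ) (hnc : OK x) {U : Subgroup (GK K)} [U.Normal]
    (hU : IsOpen (U : Set (GK K))) [MeasurableSpace (GK K ⧸ U)] [BorelSpace (GK K ⧸ U)]
    {ν : Measure (GK K ⧸ U)} [IsProbabilityMeasure ν] [ν.IsHaarMeasure] :
    Ind μ ν x (fun v => (QuotientGroup.mk (σ v) : GK K ⧸ U)) Finset.univ := by
  have hfin : Finite (GK K ⧸ U) := Subgroup.quotient_finite_of_isOpen _ hU
  exact (H.hy hnc hU).ind _

variable [∀ i, T2Space (G i)] [∀ i, SecondCountableTopology (G i)]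

/-- **Joint equidistribution with the Frobenius elements.** -/
theorem HG.joint (H : HG x σ) (hnc : OK x) {U : Subgroup (GK K)} [U.Normal]
    (hU : IsOpen (U : Set (GK K))) {f : (∀ i, G i) → ℂ} (hf : Continuous f)
    (hcl : ∀ g k, f (k * g * k⁻¹) = f g) {e : GK K ⧸ U → ℂ}
    (hecl : ∀ g k, e (k * g * k⁻¹) = e g) :
    Tendsto (mn fun v => f (fun i => x i v) * e (QuotientGroup.mk (σ v))) atTop
      (𝓝 ((∫ g, f g ∂(Measure.pi μ)) * ((Nat.card (GK K ⧸ U) : ℂ)⁻¹ * ∑ᶠ q, e q))) := by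
  have hfin : Finite (GK K ⧸ U) := Subgroup.quotient_finite_of_isOpen _ hU
  have hdisc : DiscreteTopology (GK K ⧸ U) := QuotientGroup.discreteTopology hU
  let _ : MeasurableSpace (GK K ⧸ U) := borel _
  have _ : BorelSpace (GK K ⧸ U) := ⟨rfl⟩
  set ν : Measure (GK K ⧸ U) := Measure.haarMeasure ⊤ with hν
  have hν1 : IsProbabilityMeasure ν := ⟨by
    rw [hν]
    exact Measure.haarMeasure_self⟩
  have h1 := joint_mean (H.ind (μ := μ) hnc hU (ν := ν)) hf hcl
    (e := e) continuous_of_discreteTopology hecl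
  rw [int_unif (Q := GK K ⧸ U) (ν := ν) e, Complex.real_smul] at h1
  push_cast at h1
  exact h1

variable {F : Type} [Field F] [NumberField F] [Algebra K F]

/-- **Joint equidistribution over the extensions.** -/
theorem HG.ext_law (H : HG x σ) (hnc : OK x) {y : ∀ i, HeightOneSpectrum (𝓞 F) → G i}
    (hy : ∀ i, BC (x i) (y i)) : Law (fun w => (fun i => y i w : ∀ i, G i)) (Measure.pi μ) := by
  classical
  have hopen := ker_act_open K F
  set U := (act K F).ker with hU
  -- the permutation character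
  set e : GK K ⧸ U → ℂ := fun q => ((fixn K F q.out : ℕ) : ℂ) with he
  have he1 : ∀ g : GK K, e (QuotientGroup.mk g) = ((fixn K F g : ℕ) : ℂ) := by
    intro g
    obtain ⟨u, hu⟩ := QuotientGroup.mk_out_eq_mul U g
    rw [he]
    simp only
    rw [hu, fixn_mul_ker K F g u u.2]
  have hecl : ∀ g k, e (k * g * k⁻¹) = e g := by
    intro g k
    obtain ⟨g, rfl⟩ := QuotientGroup.mk_surjective g
    obtain ⟨k, rfl⟩ := QuotientGroup.mk_surjective k
    rw [← QuotientGroup.mk_inv, ← QuotientGroup.mk_mul, ← QuotientGroup.mk_mul, he1, he1,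
      fixn_conj]
  set c : ℂ := (Nat.card (GK K ⧸ U) : ℂ)⁻¹ * ∑ᶠ q, e q with hc
  choose S hS using hy
  set T : ((∀ i, G i) → ℝ) → HeightOneSpectrum (𝓞 K) → ℝ := fun f v => f (fun i => x i v) with hT
  have hbK : ∀ f : (∀ i, G i) → ℝ, Continuous f → ∃ B, ∀ v, |T f v| ≤ B := by
    intro f hf
    obtain ⟨C, hC⟩ := (isCompact_univ (X := ∀ i, G i)).exists_bound_of_continuousOn
      hf.continuousOn
    exact ⟨C, fun v => hC _ (Set.mem_univ _)⟩
  have hbF : ∀ f : (∀ i, G i) → ℝ, Continuous f →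
      ∃ B, ∀ w : HeightOneSpectrum (𝓞 F), |f (fun i => y i w)| ≤ B := by
    intro f hf
    obtain ⟨C, hC⟩ := (isCompact_univ (X := ∀ i, G i)).exists_bound_of_continuousOn
      hf.continuousOn
    exact ⟨C, fun v => hC _ (Set.mem_univ _)⟩
  have key : ∀ f : (∀ i, G i) → ℝ, Continuous f → (∀ g k, f (k * g * k⁻¹) = f g) →
      Tendsto (fun Y : ℕ => W353.SP.EN F Y fun w => f (fun i => y i w)) atTop
        (𝓝 ((∫ g, f g ∂(Measure.pi μ)) * c.re)) := by
    intro f hf hcl
    have h1 := PS.EN_bc (K := K) (F := F) σ H.fr (T := T f) (TF := fun w => f (fun i => y i w))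
      (hbK f hf) (hbF f hf) (Finset.univ.biUnion S) (fun w hw v h2 h3 => by
        have h4 : ∀ i, ∃ h : G i, y i w = h * x i v * h⁻¹ := fun i =>
          hS i w (fun h => hw (Finset.mem_biUnion.2 ⟨i, Finset.mem_univ i, h⟩)) v h2 h3
        choose k hk using h4
        have h5 : (fun i => y i w) = k * (fun i => x i v) * k⁻¹ := funext fun i => hk i
        change f (fun i => y i w) = f (fun i => x i v)
        rw [h5, hcl])
    have h2 := H.joint (μ := μ) hnc hopen (f := fun g => ((f g : ℝ) : ℂ))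
      (Complex.continuous_ofReal.comp hf) (fun g k => by rw [hcl]) hecl
    rw [← hc] at h2
    have h3 := (Complex.continuous_re.tendsto _).comp (mn_tendsto h2)
    have h4 : ((∫ g, ((f g : ℝ) : ℂ) ∂(Measure.pi μ)) * c).re =
        (∫ g, f g ∂(Measure.pi μ)) * c.re := by
      have h5 : ∫ g, ((f g : ℝ) : ℂ) ∂(Measure.pi μ) =
          ((∫ g, f g ∂(Measure.pi μ) : ℝ) : ℂ) := integral_ofReal
      rw [h5, Complex.re_ofReal_mul]
    rw [h4] at h3
    have h5 := h1.add h3
    rw [zero_add] at h5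
    refine h5.congr fun Y => ?_
    have h6 : ((fun n : ℕ => (∑ v ∈ upto K n, ((f (fun i => x i v) : ℝ) : ℂ) *
        e (QuotientGroup.mk (σ v))) / (Nat.primeCounting n : ℂ)) Y).re =
        W353.SP.EN K Y (fun v => T f v * fixn K F (σ v)) := by
      unfold W353.SP.EN
      simp only [he1]
      rw [← Complex.ofReal_natCast (Nat.primeCounting Y), Complex.div_ofReal_re, Complex.re_sum]
      congr 1
      refine Finset.sum_congr rfl fun v _ => ?_
      rw [Complex.re_ofReal_mul, Complex.natCast_re]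
    simp only [Function.comp]
    rw [h6]
    ring
  -- the constant is one
  have hc1 : c.re = 1 := by
    have h1 := key (fun _ => 1) continuous_const fun _ _ => rfl
    have h2 : ∫ _ : (∀ i, G i), (1 : ℝ) ∂(Measure.pi μ) = 1 := by simp
    rw [h2, one_mul] at h1
    have h3 := card_ratio (K := F)
    refine tendsto_nhds_unique h1 (h3.congr fun Y => ?_)
    unfold W353.SP.EN
    rw [Finset.sum_const, nsmul_eq_mul, mul_one]
  intro f hf hcl
  have h1 := key f hf hcl
  rw [hc1, mul_one] at h1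
  have h2 : Tendsto (fun Y : ℕ => (∑ w ∈ upto F Y, ((f (fun i => y i w) : ℝ) : ℂ)) /
      (Nat.primeCounting Y : ℂ)) atTop (𝓝 ((∫ g, f g ∂(Measure.pi μ) : ℝ) : ℂ)) := by
    refine ((Complex.continuous_ofReal.tendsto _).comp h1).congr fun Y => ?_
    simp only [Function.comp]
    unfold W353.SP.EN
    push_cast
    rfl
  have h3 := (Complex.continuous_re.tendsto _).comp (mn_of_pi h2)
  rw [Complex.ofReal_re] at h3
  refine h3.congr fun N => ?_
  simp only [Function.comp]
  rw [re_mn]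
  congr 1

/-- **The converse.** -/
theorem ok_of_law [∀ i, ConnectedSpace (G i)]
    (h : Law (fun v => (fun i => x i v : ∀ i, G i)) (Measure.pi μ)) : OK x := by
  obtain ⟨W, hW⟩ := Ultrafilter.exists_le (𝓝[>] (0 : ℝ))
  have hmean : ∀ {f : (∀ i, G i) → ℝ}, Continuous f → (∀ g k, f (k * g * k⁻¹) = f g) →
      DM (fun v => f (fun i => x i v)) (∫ g, f g ∂(Measure.pi μ)) := by
    intro f hfc hcl
    refine tendsto_of_ultra fun U hU => ?_
    have h1 := M_lim (sysF K) hU (bd_cont hfc fun v => (fun i => x i v : ∀ i, G i))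
    rwa [M_law h hU hfc hcl] at h1
  have hzero : ∀ {f : (∀ i, G i) → ℝ}, Continuous f → (∀ g k, f (k * g * k⁻¹) = f g) →
      (∀ g, 0 ≤ f g) → DM (fun v => f (fun i => x i v)) 0 → ∀ g, f g = 0 := by
    intro f hfc hcl h0 hD g
    by_contra hne
    have h4 : 0 < ∫ g, f g ∂(Measure.pi μ) := by
      rw [integral_pos_iff_support_of_nonneg h0 (intg hfc)]
      exact hfc.isOpen_support.measure_pos _ ⟨g, hne⟩
    have h5 := tendsto_nhds_unique (hmean hfc hcl) hD
    linarith
  have hcc : ∀ (i : ι) {n : ℕ} {π : G i →* Matrix.unitaryGroup (Fin n) ℂ}, Continuous π →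
      Continuous fun g : (∀ i, G i) => ‖chi π (g i)‖ := fun i n π hc =>
    (cont_chi hc).norm.comp (continuous_apply i)
  refine ⟨fun i n π hc hs hn => ?_, fun i n π hc hs hn B hD => ?_,
    fun i j hij a π b π' hc hs ha hc' hs' hb hD => ?_⟩
  · have h1 := hmean (f := fun g => ‖chi π (g i)‖ ^ 2) ((hcc i hc).pow 2) fun g k => by
      change ‖chi π (k i * g i * (k i)⁻¹)‖ ^ 2 = _
      rw [chi_cls]
    have h2 : ∫ g : (∀ i, G i), ‖chi π (g i)‖ ^ 2 ∂(Measure.pi μ) = 1 := by
      have h3 : (∏ j, ∫ g, (Function.update (fun j (_ : G j) => (1 : ℝ)) i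
          (fun g => ‖chi π g‖ ^ 2)) j g ∂(μ j)) = 1 := by
        rw [← Finset.mul_prod_erase Finset.univ _ (Finset.mem_univ i)]
        simp only [Function.update_self]
        rw [int_sq hc hs (by omega), one_mul]
        refine Finset.prod_eq_one fun j hj => ?_
        rw [Function.update_of_ne (Finset.ne_of_mem_erase hj)]
        simp
      rw [← h3, ← integral_fintype_prod_eq_prod]
      congr 1
      funext g
      rw [← Finset.mul_prod_erase Finset.univ _ (Finset.mem_univ i)]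
      simp only [Function.update_self]
      rw [Finset.prod_eq_one, mul_one]
      intro j hj
      rw [Function.update_of_ne (Finset.ne_of_mem_erase hj)]
    rwa [h2] at h1
  · have h1 := hzero (f := fun g => ∏ b ∈ B, |‖chi π (g i)‖ - b|)
      (continuous_finsetProd _ fun b _ => ((hcc i hc).sub continuous_const).abs) (fun g k => by
        change ∏ b ∈ B, |‖chi π (k i * g i * (k i)⁻¹)‖ - b| = _
        rw [chi_cls]) (fun g => Finset.prod_nonneg fun b _ => abs_nonneg _) hD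
    have h2 : ∀ g : G i, ‖chi π g‖ ^ 2 ∈ (fun b => b ^ 2) '' (B : Set ℝ) := by
      intro g
      have h3 := h1 (Function.update 1 i g)
      simp only [Function.update_self] at h3
      obtain ⟨b, hb, h4⟩ := Finset.prod_eq_zero_iff.1 h3
      exact ⟨b, hb, by rw [← sub_eq_zero.1 (abs_eq_zero.1 h4)]⟩
    have h3 := dim_one_of_finite (μ i) hc hs (by omega) (B.finite_toSet.image _) h2
    omega
  · have h1 := hzero (f := fun g => |‖chi π (g i)‖ ^ 2 - ‖chi π' (g j)‖ ^ 2|)
      (((hcc i hc).pow 2).sub ((hcc j hc').pow 2)).abs (fun g k => by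
        change |‖chi π (k i * g i * (k i)⁻¹)‖ ^ 2 - ‖chi π' (k j * g j * (k j)⁻¹)‖ ^ 2| = _
        rw [chi_cls, chi_cls]) (fun g => abs_nonneg _) hD
    have h4 : ∀ g : G i, ‖chi π g‖ ^ 2 = ‖chi π' (1 : G j)‖ ^ 2 := by
      intro g
      have h5 := h1 (Function.update 1 i g)
      simp only [Function.update_self, Function.update_of_ne hij.symm, Pi.one_apply] at h5
      exact sub_eq_zero.1 (abs_eq_zero.1 h5)
    have h5 : ∀ g, ‖chi π g‖ ^ 2 = 1 := by
      have h6 := int_sq (μ := μ i) hc hs (by omega)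
      simp only [h4] at h6
      intro g
      rw [h4]
      simpa using h6
    have h6 := dim_one_of_abs hc h5
    omega

end

end Pool.Agent.Y798.JL
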