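import Pool.Agent.TH553.ST.PW2

/-! The theorem of Peter and Weyl for class functions on a finite product of compact groups. -/

set_option autoImplicit false
set_option linter.unusedSectionVars false

namespace Pool.Agent.Y798.JL

open Complex Filter Topology ComplexConjugate MeasureTheory Pool.Agent.TH553.ST

section

variable {ι : Type} [Fintype ι] {G : ι → Type} [∀ i, Group (G i)] [∀ i, TopologicalSpace (G i)]

/-- sums of products of matrix coefficients -/
def CoefP (f : (∀ i, G i) → ℂ) : Prop := ∃ (J : Type) (_ : Fintype J) (a : J → ℂ)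
  (φ : J → ∀ i, G i → ℂ), (∀ j i, Coef (φ j i)) ∧ ∀ p, f p = ∑ j, a j * ∏ i, φ j i (p i)

theorem CoefP.add {f f' : (∀ i, G i) → ℂ} (h : CoefP f) (h' : CoefP f') :
    CoefP fun p => f p + f' p := by
  obtain ⟨J, _, a, φ, h1, h2⟩ := h
  obtain ⟨J', _, a', φ', h1', h2'⟩ := h'
  refine ⟨J ⊕ J', inferInstance, Sum.elim a a', Sum.elim φ φ', ?_, fun p => ?_⟩
  · rintro (j | j)
    · exact h1 j
    · exact h1' j
  · rw [Fintype.sum_sum_type]
    exact congrArg₂ (· + ·) (h2 p) (h2' p)

theorem CoefP.mul {f f' : (∀ i, G i) → ℂ} (h : CoefP f) (h' : CoefP f') :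
    CoefP fun p => f p * f' p := by
  obtain ⟨J, _, a, φ, h1, h2⟩ := h
  obtain ⟨J', _, a', φ', h1', h2'⟩ := h'
  refine ⟨J × J', inferInstance, fun j => a j.1 * a' j.2, fun j i g => φ j.1 i g * φ' j.2 i g,
    fun j i => (h1 j.1 i).mul (h1' j.2 i), fun p => ?_⟩
  rw [Fintype.sum_prod_type]
  refine (congrArg₂ (· * ·) (h2 p) (h2' p)).trans ?_
  simp only
  rw [Finset.sum_mul_sum]
  refine Finset.sum_congr rfl fun i _ => Finset.sum_congr rfl fun j _ => ?_
  rw [Finset.prod_mul_distrib]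
  ring

theorem CoefP.const (c : ℂ) : CoefP fun _ : (∀ i, G i) => c :=
  ⟨Unit, inferInstance, fun _ => c, fun _ _ _ => 1, fun _ _ => Coef.const 1, fun p => by simp⟩

theorem CoefP.conj {f : (∀ i, G i) → ℂ} (h : CoefP f) : CoefP fun p => conj (f p) := by
  obtain ⟨J, _, a, φ, h1, h2⟩ := h
  refine ⟨J, inferInstance, fun j => conj (a j), fun j i g => conj (φ j i g),
    fun j i => (h1 j i).conj, fun p => ?_⟩
  simp only
  rw [h2, map_sum]
  refine Finset.sum_congr rfl fun j _ => ?_
  rw [map_mul, map_prod]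

theorem coefP_cont {f : (∀ i, G i) → ℂ} (h : CoefP f) : Continuous f := by
  obtain ⟨J, _, a, φ, h1, h2⟩ := h
  have : f = fun p => ∑ j, a j * ∏ i, φ j i (p i) := funext h2
  rw [this]
  exact continuous_finsetSum _ fun j _ => continuous_const.mul
    (continuous_finsetProd _ fun i _ => (coef_cont (h1 j i)).comp (continuous_apply i))

/-- the algebra -/
noncomputable def coefAlgP (G : ι → Type) [∀ i, Group (G i)] [∀ i, TopologicalSpace (G i)] :
    StarSubalgebra ℂ C(∀ i, G i, ℂ) where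
  carrier := {f | CoefP f}
  mul_mem' := fun {f f'} (h : CoefP f) (h' : CoefP f') => show CoefP _ from h.mul h'
  one_mem' := show CoefP _ from CoefP.const 1
  add_mem' := fun {f f'} (h : CoefP f) (h' : CoefP f') => show CoefP _ from h.add h'
  zero_mem' := show CoefP _ from CoefP.const 0
  algebraMap_mem' := fun c => show CoefP _ from CoefP.const c
  star_mem' := fun {f} (h : CoefP f) => show CoefP _ from h.conj

theorem coefP_proj [DecidableEq ι] (i : ι) {φ : G i → ℂ} (h : Coef φ) :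
    CoefP fun p : (∀ i, G i) => φ (p i) := by
  refine ⟨Unit, inferInstance, fun _ => 1, fun _ => Function.update (fun _ _ => 1) i φ,
    fun _ j => ?_, fun p => ?_⟩
  · simp only
    by_cases hj : j = i
    · subst hj
      rw [Function.update_self]
      exact h
    · rw [Function.update_of_ne hj]
      exact Coef.const 1
  · simp only [Finset.univ_unique, Finset.sum_singleton, one_mul]
    rw [Finset.prod_eq_single i]
    · rw [Function.update_self]
    · intro j _ hj
      rw [Function.update_of_ne hj]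
    · intro h
      exact absurd (Finset.mem_univ _) h

end

section

variable {ι : Type} [Fintype ι] [DecidableEq ι] {G : ι → Type} [∀ i, Group (G i)]
  [∀ i, TopologicalSpace (G i)] [∀ i, IsTopologicalGroup (G i)] [∀ i, CompactSpace (G i)]
  [∀ i, T2Space (G i)]

theorem coefP_dense {f : (∀ i, G i) → ℂ} (hf : Continuous f) {ε : ℝ} (hε : 0 < ε) :
    ∃ φ : (∀ i, G i) → ℂ, CoefP φ ∧ ∀ p, ‖f p - φ p‖ ≤ ε := by
  have h1 : (coefAlgP G).topologicalClosure = ⊤ := by
    refine ContinuousMap.starSubalgebra_topologicalClosure_eq_top_of_separatesPoints _ ?_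
    intro g h hne
    obtain ⟨i, hi⟩ := Function.ne_iff.1 hne
    obtain ⟨φ, h2, h3⟩ := coef_sep hi
    exact ⟨_, ⟨⟨_, coefP_cont (coefP_proj i h2)⟩, coefP_proj i h2, rfl⟩, h3⟩
  have h2 : (⟨f, hf⟩ : C(∀ i, G i, ℂ)) ∈ (coefAlgP G).topologicalClosure := by
    rw [h1]
    exact StarSubalgebra.mem_top
  have h3 : (⟨f, hf⟩ : C(∀ i, G i, ℂ)) ∈ closure ((coefAlgP G :
      StarSubalgebra ℂ C(∀ i, G i, ℂ)) : Set C(∀ i, G i, ℂ)) := h2
  obtain ⟨φ, h4, h5⟩ := Metric.mem_closure_iff.1 h3 ε hε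
  refine ⟨φ, h4, fun g => ?_⟩
  rw [dist_eq_norm] at h5
  exact (ContinuousMap.norm_coe_le_norm ((⟨f, hf⟩ : C(∀ i, G i, ℂ)) - φ) g).trans h5.le

variable [∀ i, SecondCountableTopology (G i)]
  [∀ i, MeasurableSpace (G i)] [∀ i, BorelSpace (G i)] {μ : ∀ i, Measure (G i)}
  [∀ i, IsProbabilityMeasure (μ i)] [∀ i, (μ i).IsHaarMeasure]

/-- finite sums of products of irreducible characters -/
def DecP (f : (∀ i, G i) → ℂ) : Prop := ∃ (J : Type) (_ : Fintype J) (m : J → ι → ℕ)
  (ρ : ∀ j i, G i →* Matrix.unitaryGroup (Fin (m j i)) ℂ) (a : J → ℂ),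
  (∀ j i, Continuous (ρ j i) ∧ Schur (ρ j i)) ∧ ∀ p, f p = ∑ j, a j * ∏ i, chi (ρ j i) (p i)

omit [∀ i, IsTopologicalGroup (G i)] [∀ i, CompactSpace (G i)] [∀ i, T2Space (G i)]
  [∀ i, SecondCountableTopology (G i)] [∀ i, MeasurableSpace (G i)] [∀ i, BorelSpace (G i)] in
theorem DecP.cont {f : (∀ i, G i) → ℂ} (h : DecP f) : Continuous f := by
  obtain ⟨J, _, m, ρ, a, h1, h2⟩ := h
  have : f = fun p => ∑ j, a j * ∏ i, chi (ρ j i) (p i) := funext h2
  rw [this]
  exact continuous_finsetSum _ fun j _ => continuous_const.mul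
    (continuous_finsetProd _ fun i _ => (cont_chi (h1 j i).1).comp (continuous_apply i))

omit [∀ i, IsTopologicalGroup (G i)] [∀ i, CompactSpace (G i)] [∀ i, T2Space (G i)]
  [∀ i, SecondCountableTopology (G i)] [∀ i, MeasurableSpace (G i)] [∀ i, BorelSpace (G i)] in
/-- products of combinations of characters -/
theorem decP_prod {f : ∀ i, G i → ℂ} (h : ∀ i, Dec (f i)) : DecP fun p => ∏ i, f i (p i) := by
  choose J iJ m ρ a h1 h2 using h
  refine ⟨∀ i, J i, inferInstance, fun j i => m i (j i), fun j i => ρ i (j i),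
    fun j => ∏ i, a i (j i), fun j i => h1 i (j i), fun p => ?_⟩
  simp only [h2]
  rw [Finset.prod_univ_sum, Fintype.piFinset_univ]
  exact Finset.sum_congr rfl fun j _ => Finset.prod_mul_distrib

omit [∀ i, IsTopologicalGroup (G i)] [∀ i, CompactSpace (G i)] [∀ i, T2Space (G i)]
  [∀ i, SecondCountableTopology (G i)] [∀ i, MeasurableSpace (G i)] [∀ i, BorelSpace (G i)]
  [DecidableEq ι] in
theorem DecP.sum {J : Type} [Fintype J] {f : J → (∀ i, G i) → ℂ} (a : J → ℂ)
    (h : ∀ j, DecP (f j)) : DecP fun p => ∑ j, a j * f j p := by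
  choose J' iJ m ρ b h1 h2 using h
  refine ⟨Σ j, J' j, inferInstance, fun j => m j.1 j.2, fun j => ρ j.1 j.2,
    fun j => a j.1 * b j.1 j.2, fun j => h1 j.1 j.2, fun p => ?_⟩
  rw [Fintype.sum_sigma]
  refine Finset.sum_congr rfl fun j _ => ?_
  rw [h2, Finset.mul_sum]
  exact Finset.sum_congr rfl fun k _ => by ring

/-- **Products of irreducible characters span a dense space of class functions.** -/
theorem class_denseP {f : (∀ i, G i) → ℂ} (hf : Continuous f)
    (hcl : ∀ g k, f (k * g * k⁻¹) = f g) {ε : ℝ} (hε : 0 < ε) :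
    ∃ φ : (∀ i, G i) → ℂ, DecP φ ∧ ∀ p, ‖f p - φ p‖ ≤ ε := by
  obtain ⟨φ₀, h1, h2⟩ := coefP_dense hf hε
  let ν : ∀ i, Measure (G i) := fun i => Measure.haarMeasure ⊤
  have hν : ∀ i, IsProbabilityMeasure (ν i) := fun i => ⟨by
    exact Measure.haarMeasure_self⟩
  have hc0 := coefP_cont h1
  obtain ⟨J, _, a, φ, h3, h5⟩ := h1
  set P := Measure.pi ν with hP
  refine ⟨fun p => ∫ k, φ₀ (k⁻¹ * p * k) ∂P, ?_, fun p => ?_⟩
  · have e : (fun p => ∫ k, φ₀ (k⁻¹ * p * k) ∂P) = fun p => ∑ j, a j *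
        ∏ i, cav (ν i) (φ j i) (p i) := by
      funext p
      have hc1 : ∀ j i, Continuous fun k : G i => φ j i (k⁻¹ * p i * k) := fun j i =>
        (coef_cont (h3 j i)).comp ((continuous_inv.mul continuous_const).mul continuous_id)
      have hc2 : ∀ j, Continuous fun k : (∀ i, G i) => ∏ i, φ j i ((k⁻¹ * p * k) i) := fun j =>
        continuous_finsetProd _ fun i _ => (hc1 j i).comp (continuous_apply i)
      simp only [h5]
      rw [integral_finsetSum _ fun j _ => (intg (hc2 j)).const_mul _]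
      refine Finset.sum_congr rfl fun j _ => ?_
      rw [integral_const_mul]
      congr 1
      exact integral_fintype_prod_eq_prod (μ := ν) (fun i (k : G i) => φ j i (k⁻¹ * p i * k))
    rw [e]
    exact DecP.sum a fun j => decP_prod fun i => dec_cav (h3 j i)
  · have hin : ∀ F : (∀ i, G i) → ℂ, Continuous F → Continuous fun k => F (k⁻¹ * p * k) :=
      fun F hF => hF.comp ((continuous_inv.mul continuous_const).mul continuous_id)
    have h6 : ∀ k, f (k⁻¹ * p * k) = f p := by
      intro k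
      have := hcl p k⁻¹
      rwa [inv_inv] at this
    have e : f p = ∫ k, f (k⁻¹ * p * k) ∂P := by
      simp only [h6]
      simp
    rw [e]
    rw [← integral_sub (intg (hin f hf)) (intg (hin φ₀ hc0))]
    refine (norm_integral_le_integral_norm _).trans ?_
    have h7 : ∫ k, ‖f (k⁻¹ * p * k) - φ₀ (k⁻¹ * p * k)‖ ∂P ≤ ∫ _, ε ∂P := by
      refine integral_mono ((intg (hin f hf)).sub (intg (hin φ₀ hc0))).norm
        (integrable_const _) fun k => h2 _
    simpa using h7

end

end Pool.Agent.Y798.JL
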