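import Pool.Agent.Y798.JL.Ten
import Pool.Agent.Y798.JL.Dens

/-! Independence of several families of conjugacy classes. -/

set_option autoImplicit false
set_option linter.unusedSectionVars false

namespace Pool.Agent.Y798.JL

open Complex Filter Topology ComplexConjugate NumberField IsDedekindDomain MeasureTheory
  Pool.Agent.W540.BE Pool.Agent.TH553.RS Pool.Agent.TH553.ST
open scoped Matrix ComplexOrder

section

variable {G : Type} [Group G] [TopologicalSpace G]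

theorem schur_triv : Schur (1 : G →* Matrix.unitaryGroup (Fin 1) ℂ) := by
  intro A _
  refine ⟨A 0 0, ?_⟩
  ext i j
  have hi : i = 0 := Subsingleton.elim _ _
  have hj : j = 0 := Subsingleton.elim _ _
  subst hi hj
  simp

omit [TopologicalSpace G] in
theorem chi_triv' {n : ℕ} {π : G →* Matrix.unitaryGroup (Fin n) ℂ} (h : ∀ g, π g = 1) (g : G) :
    chi π g = n := by
  unfold chi
  rw [h]
  simp

/-- a combination of characters with the additional property that all are trivial -/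
theorem dec_data {f : G → ℂ} (hf : Dec f) {P : Prop} (hP : P → ∀ g, f g = 1) :
    ∃ (J : Type) (_ : Fintype J) (m : J → ℕ) (ρ : ∀ j, G →* Matrix.unitaryGroup (Fin (m j)) ℂ)
      (a : J → ℂ), (∀ j, Continuous (ρ j) ∧ Schur (ρ j)) ∧ (∀ g, f g = ∑ j, a j * chi (ρ j) g) ∧
      (P → ∀ j g, ρ j g = 1) := by
  by_cases h : P
  · refine ⟨Unit, inferInstance, fun _ => 1, fun _ => 1, fun _ => 1,
      fun _ => ⟨continuous_const, schur_triv⟩, fun g => ?_, fun _ _ _ => rfl⟩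
    rw [hP h g]
    simp only [Finset.univ_unique, Finset.sum_singleton, one_mul]
    rw [chi_triv' (π := (1 : G →* Matrix.unitaryGroup (Fin 1) ℂ)) (fun _ => rfl)]
    simp
  · obtain ⟨J, i, m, ρ, a, h1, h2⟩ := hf
    exact ⟨J, i, m, ρ, a, h1, h2, fun h' => absurd h' h⟩

variable [IsTopologicalGroup G] [CompactSpace G] [MeasurableSpace G] [BorelSpace G]
  {μ : Measure G} [IsProbabilityMeasure μ] [μ.IsHaarMeasure]

theorem int_dec {f : G → ℂ} {J : Type} [Fintype J] {m : J → ℕ}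
    {ρ : ∀ j, G →* Matrix.unitaryGroup (Fin (m j)) ℂ} {a : J → ℂ}
    (h1 : ∀ j, Continuous (ρ j) ∧ Schur (ρ j)) (h2 : ∀ g, f g = ∑ j, a j * chi (ρ j) g) :
    ∫ g, f g ∂μ = ∑ j, a j * ∫ g, chi (ρ j) g ∂μ := by
  simp only [h2]
  rw [integral_finsetSum _ fun j _ => (intg (cont_chi (h1 j).1)).const_mul _]
  exact Finset.sum_congr rfl fun j _ => integral_const_mul _ _

/-- class functions which are matrix coefficients -/
theorem dec_of_coef {f : G → ℂ} (hf : Coef f) (hcl : ∀ g k, f (k * g * k⁻¹) = f g) : Dec f := by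
  let _ : MeasurableSpace G := borel G
  have _ : BorelSpace G := ⟨rfl⟩
  set ν : Measure G := Measure.haarMeasure ⊤ with hν
  have hν1 : IsProbabilityMeasure ν := ⟨by
    rw [hν]
    exact Measure.haarMeasure_self⟩
  have h1 := dec_cav (μ := ν) hf
  have h2 : cav ν f = f := funext fun g => cav_class hcl g
  rwa [h2] at h1

variable {n : ℕ} {π : G →* Matrix.unitaryGroup (Fin n) ℂ}

omit [IsTopologicalGroup G] [CompactSpace G] [MeasurableSpace G] [BorelSpace G] in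
theorem coef_chi (hc : Continuous π) : Coef (chi π) :=
  ⟨Fin n, inferInstance, inferInstance, π, 1, hc, fun g => by rw [Matrix.one_mul]; rfl⟩

omit [IsTopologicalGroup G] [CompactSpace G] [MeasurableSpace G] [BorelSpace G] in
theorem coef_pow (hc : Continuous π) (k : ℕ) :
    Coef fun g => (((‖chi π g‖ ^ 2) ^ k : ℝ) : ℂ) := by
  have h1 : Coef fun g => ((‖chi π g‖ ^ 2 : ℝ) : ℂ) := by
    have h2 := (coef_chi hc).mul (coef_chi hc).conj
    have e : (fun g => ((‖chi π g‖ ^ 2 : ℝ) : ℂ)) = fun g => chi π g * conj (chi π g) := by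
      funext g
      rw [Complex.mul_conj, Complex.normSq_eq_norm_sq]
    rw [e]
    exact h2
  induction k with
  | zero =>
    have e : (fun g => (((‖chi π g‖ ^ 2) ^ 0 : ℝ) : ℂ)) = fun _ => 1 := by
      funext g
      simp
    rw [e]
    exact Coef.const 1
  | succ k ih =>
    have e : (fun g => (((‖chi π g‖ ^ 2) ^ (k + 1) : ℝ) : ℂ)) = fun g =>
        (((‖chi π g‖ ^ 2) ^ k : ℝ) : ℂ) * ((‖chi π g‖ ^ 2 : ℝ) : ℂ) := by
      funext g
      push_cast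
      ring
    rw [e]
    exact ih.mul h1

theorem dec_pow (hc : Continuous π) (k : ℕ) : Dec fun g => (((‖chi π g‖ ^ 2) ^ k : ℝ) : ℂ) :=
  dec_of_coef (coef_pow hc k) fun g h => by
    change (((‖chi π (h * g * h⁻¹)‖ ^ 2) ^ k : ℝ) : ℂ) = _
    rw [chi_cls]

end

section

variable {K : Type} [Field K] [NumberField K]
variable {ι : Type} [Fintype ι] [DecidableEq ι] {G : ι → Type} [∀ i, Group (G i)]
  [∀ i, TopologicalSpace (G i)] [∀ i, IsTopologicalGroup (G i)] [∀ i, CompactSpace (G i)]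
  [∀ i, MeasurableSpace (G i)] [∀ i, BorelSpace (G i)] {μ : ∀ i, Measure (G i)}
  [∀ i, IsProbabilityMeasure (μ i)] [∀ i, (μ i).IsHaarMeasure]
variable {Q : Type} [Group Q] [TopologicalSpace Q] [IsTopologicalGroup Q] [CompactSpace Q]
  [MeasurableSpace Q] [BorelSpace Q] {ν : Measure Q} [IsProbabilityMeasure ν] [ν.IsHaarMeasure]
variable {x : ∀ i, HeightOneSpectrum (𝓞 K) → G i} {q : HeightOneSpectrum (𝓞 K) → Q}

/-- independence of the families with index in `J` -/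
def Ind (μ : ∀ i, Measure (G i)) (ν : Measure Q) (x : ∀ i, HeightOneSpectrum (𝓞 K) → G i)
    (q : HeightOneSpectrum (𝓞 K) → Q) (J : Finset ι) : Prop :=
  ∀ (n : ι → ℕ) (π : ∀ i, G i →* Matrix.unitaryGroup (Fin (n i)) ℂ) (m : ℕ)
    (ψ : Q →* Matrix.unitaryGroup (Fin m) ℂ), (∀ i, Continuous (π i) ∧ Schur (π i)) →
    (∀ i, i ∉ J → ∀ g, π i g = 1) → Continuous ψ → Schur ψ →
    Tendsto (mn fun v => (∏ i, chi (π i) (x i v)) * chi ψ (q v)) atTop
      (𝓝 ((∏ i, ∫ g, chi (π i) g ∂(μ i)) * ∫ g, chi ψ g ∂ν))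

variable {J : Finset ι}

theorem ind_dec (h : Ind μ ν x q J) {f : ∀ i, G i → ℂ} (hf : ∀ i, Dec (f i))
    (hJ : ∀ i, i ∉ J → ∀ g, f i g = 1) {e : Q → ℂ} (he : Dec e) :
    Tendsto (mn fun v => (∏ i, f i (x i v)) * e (q v)) atTop
      (𝓝 ((∏ i, ∫ g, f i g ∂(μ i)) * ∫ g, e g ∂ν)) := by
  choose J' iJ m ρ a h1 h2 h3 using fun i => dec_data (hf i) (hJ i)
  obtain ⟨L, iL, mL, ψ, b, h4, h5⟩ := he
  have key : ∀ (X : ∀ i, J' i → ℂ) (Y : L → ℂ),
      (∏ i, ∑ j, a i j * X i j) * ∑ l, b l * Y l =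
      ∑ p : (∀ i, J' i) × L, ((∏ i, a i (p.1 i)) * b p.2) * ((∏ i, X i (p.1 i)) * Y p.2) := by
    intro X Y
    rw [Finset.prod_univ_sum, Fintype.piFinset_univ, Finset.sum_mul_sum, Fintype.sum_prod_type]
    refine Finset.sum_congr rfl fun p _ => Finset.sum_congr rfl fun l _ => ?_
    rw [Finset.prod_mul_distrib]
    ring
  have e1 : (∏ i, ∫ g, f i g ∂(μ i)) * ∫ g, e g ∂ν =
      ∑ p : (∀ i, J' i) × L, ((∏ i, a i (p.1 i)) * b p.2) *
        ((∏ i, ∫ g, chi (ρ i (p.1 i)) g ∂(μ i)) * ∫ g, chi (ψ p.2) g ∂ν) := by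
    rw [int_dec h4 h5, ← key (fun i j => ∫ g, chi (ρ i j) g ∂(μ i)) fun l => ∫ g, chi (ψ l) g ∂ν]
    congr 1
    exact Finset.prod_congr rfl fun i _ => int_dec (h1 i) (h2 i)
  rw [e1]
  have h6 : Tendsto (fun N => ∑ p : (∀ i, J' i) × L, ((∏ i, a i (p.1 i)) * b p.2) *
      mn (fun v => (∏ i, chi (ρ i (p.1 i)) (x i v)) * chi (ψ p.2) (q v)) N) atTop
      (𝓝 (∑ p : (∀ i, J' i) × L, ((∏ i, a i (p.1 i)) * b p.2) *
        ((∏ i, ∫ g, chi (ρ i (p.1 i)) g ∂(μ i)) * ∫ g, chi (ψ p.2) g ∂ν))) :=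
    tendsto_finsetSum _ fun p _ => (h _ (fun i => ρ i (p.1 i)) _ (ψ p.2)
      (fun i => h1 i (p.1 i)) (fun i hi => h3 i hi (p.1 i)) (h4 p.2).1 (h4 p.2).2).const_mul _
  refine h6.congr fun N => ?_
  have e2 : (fun v => (∏ i, f i (x i v)) * e (q v)) = fun v =>
      ∑ p : (∀ i, J' i) × L, ((∏ i, a i (p.1 i)) * b p.2) *
        ((∏ i, chi (ρ i (p.1 i)) (x i v)) * chi (ψ p.2) (q v)) := by
    funext v
    rw [h5, ← key (fun i j => chi (ρ i j) (x i v)) fun l => chi (ψ l) (q v)]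
    congr 1
    exact Finset.prod_congr rfl fun i _ => h2 i _
  rw [e2, mn_sum]
  exact Finset.sum_congr rfl fun p _ => (mn_mul _ _ _).symm

variable {n : ι → ℕ} {π : ∀ i, G i →* Matrix.unitaryGroup (Fin (n i)) ℂ} {m : ℕ}
  {ψ : Q →* Matrix.unitaryGroup (Fin m) ℂ}

/-- the products of powers of absolute values -/
noncomputable def pw (π : ∀ i, G i →* Matrix.unitaryGroup (Fin (n i)) ℂ)
    (x : ∀ i, HeightOneSpectrum (𝓞 K) → G i) (ψ : Q →* Matrix.unitaryGroup (Fin m) ℂ)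
    (q : HeightOneSpectrum (𝓞 K) → Q) (e : ι → ℕ) (a : ℕ) (v : HeightOneSpectrum (𝓞 K)) : ℝ :=
  (∏ i, (‖chi (π i) (x i v)‖ ^ 2) ^ (e i)) * (‖chi ψ (q v)‖ ^ 2) ^ a

theorem pw_nonneg (e : ι → ℕ) (a : ℕ) (v : HeightOneSpectrum (𝓞 K)) : 0 ≤ pw π x ψ q e a v := by
  unfold pw
  have : 0 ≤ ∏ i, (‖chi (π i) (x i v)‖ ^ 2) ^ (e i) :=
    Finset.prod_nonneg fun i _ => by positivity
  positivity

theorem bd_pw (e : ι → ℕ) (a : ℕ) : Bd (pw π x ψ q e a) := by
  refine ⟨(∏ i, ((n i : ℝ) ^ 2) ^ (e i)) * ((m : ℝ) ^ 2) ^ a, fun v => ?_⟩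
  rw [abs_of_nonneg (pw_nonneg e a v)]
  unfold pw
  refine mul_le_mul ?_ ?_ (by positivity) (Finset.prod_nonneg fun i _ => by positivity)
  · refine Finset.prod_le_prod (fun i _ => by positivity) fun i _ => ?_
    exact pow_le_pow_left₀ (by positivity) (pow_le_pow_left₀ (norm_nonneg _) (norm_chi _ _) 2) _
  · exact pow_le_pow_left₀ (by positivity) (pow_le_pow_left₀ (norm_nonneg _) (norm_chi _ _) 2) _

theorem pw_mul (e e' : ι → ℕ) (a a' : ℕ) (v : HeightOneSpectrum (𝓞 K)) :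
    pw π x ψ q e a v * pw π x ψ q e' a' v = pw π x ψ q (e + e') (a + a') v := by
  unfold pw
  simp only [Pi.add_apply, pow_add, Finset.prod_mul_distrib]
  ring

/-- **The means of the products of powers of absolute values.** -/
theorem ind_pow (h : Ind μ ν x q J) (hπ : ∀ i, Continuous (π i)) (hψ : Continuous ψ)
    (e : ι → ℕ) (a : ℕ) (he : ∀ i, i ∉ J → ∀ g, (‖chi (π i) g‖ ^ 2) ^ (e i) = 1)
    {W : Ultrafilter ℝ} (hW : (W : Filter ℝ) ≤ 𝓝[>] 0) :
    M (nm K) W (pw π x ψ q e a) =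
      (∏ i, ∫ g, (‖chi (π i) g‖ ^ 2) ^ (e i) ∂(μ i)) * ∫ g, (‖chi ψ g‖ ^ 2) ^ a ∂ν := by
  have h1 := ind_dec h (f := fun i g => (((‖chi (π i) g‖ ^ 2) ^ (e i) : ℝ) : ℂ))
    (fun i => dec_pow (hπ i) (e i)) (fun i hi g => by
      rw [he i hi g]
      simp) (e := fun g => (((‖chi ψ g‖ ^ 2) ^ a : ℝ) : ℂ)) (dec_pow hψ a)
  refine M_of_mn hW (bd_pw e a) ?_
  have h2 : (∏ i, ∫ g, (((‖chi (π i) g‖ ^ 2) ^ (e i) : ℝ) : ℂ) ∂(μ i)) *
      ∫ g, (((‖chi ψ g‖ ^ 2) ^ a : ℝ) : ℂ) ∂ν =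
      (((∏ i, ∫ g, (‖chi (π i) g‖ ^ 2) ^ (e i) ∂(μ i)) * ∫ g, (‖chi ψ g‖ ^ 2) ^ a ∂ν : ℝ) : ℂ) := by
    rw [Complex.ofReal_mul, Complex.ofReal_prod]
    congr 1
    · exact Finset.prod_congr rfl fun i _ => integral_ofReal
    · exact integral_ofReal
  rw [h2] at h1
  have h3 := (Complex.continuous_re.tendsto _).comp h1
  rw [Complex.ofReal_re] at h3
  refine h3.congr fun N => ?_
  simp only [Function.comp]
  rw [re_mn]
  congr 1
  funext v
  unfold pw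
  rw [← Complex.ofReal_prod, ← Complex.ofReal_mul, Complex.ofReal_re]

end

end Pool.Agent.Y798.JL
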