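import Pool.Agent.Y798.JL.Ind

/-! Joint equidistribution of families which are equidistributed separately. -/

set_option autoImplicit false
set_option linter.unusedSectionVars false

namespace Pool.Agent.Y798.JL

open Complex Filter Topology ComplexConjugate NumberField IsDedekindDomain MeasureTheory
  Pool.Agent.W540.BE Pool.Agent.TH553.RS Pool.Agent.TH553.ST
open scoped Matrix ComplexOrder Kronecker

section

variable {G : Type} [Group G] [TopologicalSpace G] [IsTopologicalGroup G] [CompactSpace G]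
  [MeasurableSpace G] [BorelSpace G] {μ : Measure G} [IsProbabilityMeasure μ] [μ.IsHaarMeasure]
  {n : ℕ} {π : G →* Matrix.unitaryGroup (Fin n) ℂ}

/-- a function with variance zero is constant -/
theorem const_of_sq {f : G → ℝ} (hf : Continuous f) (h1 : ∫ g, f g ∂μ = 1)
    (h2 : ∫ g, f g ^ 2 ∂μ = 1) (g : G) : f g = 1 := by
  by_contra hne
  have hc : Continuous fun g => (f g - 1) ^ 2 := (hf.sub continuous_const).pow 2
  have h3 : 0 < ∫ g, (f g - 1) ^ 2 ∂μ := int_pos hc (fun g => sq_nonneg _) (g₀ := g) (by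
    have : f g - 1 ≠ 0 := sub_ne_zero.2 hne
    positivity)
  have h4 : ∫ g, (f g - 1) ^ 2 ∂μ = 0 := by
    have e : (fun g => (f g - 1) ^ 2) = fun g => (f g ^ 2 + (-2) * f g) + 1 := by
      funext g
      ring
    have i1 : Integrable (fun g => f g ^ 2) μ := intg (hf.pow 2)
    have i2 : Integrable (fun g => (-2) * f g) μ := (intg hf).const_mul _
    have i3 : Integrable (fun g => f g ^ 2 + (-2) * f g) μ := i1.add i2
    rw [e, integral_add i3 (integrable_const _), integral_add i1 i2, integral_const_mul, h1, h2]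
    simp
    norm_num
  linarith

omit [IsTopologicalGroup G] [CompactSpace G] [MeasurableSpace G] [BorelSpace G]
  [IsProbabilityMeasure μ] [μ.IsHaarMeasure] in
theorem chi_zero {π : G →* Matrix.unitaryGroup (Fin 0) ℂ} (g : G) : chi π g = 0 := by
  unfold chi
  simp

omit [IsTopologicalGroup G] [CompactSpace G] [MeasurableSpace G] [BorelSpace G]
  [IsProbabilityMeasure μ] [μ.IsHaarMeasure] [TopologicalSpace G] in
theorem sq_of_dim_one (hn : n = 1) (g : G) : ‖chi π g‖ ^ 2 = 1 := by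
  subst hn
  obtain ⟨α, h1, h2, -⟩ := exists_eig (π g).2
  have h3 : Fintype.card (Fin 1) = 1 := rfl
  have h4 : chi π g = ∑ j, α j := h2.symm
  rw [h4]
  have h5 : ∑ j, α j = α ⟨0, by rw [h3]; exact one_pos⟩ := by
    rw [Fintype.sum_eq_single]
    intro j hj
    exfalso
    apply hj
    apply Fin.ext
    have h6 : (j : ℕ) < 1 := lt_of_lt_of_eq j.2 h3
    change (j : ℕ) = 0
    omega
  rw [h5, h1]
  norm_num

theorem dim_one_of_abs (hc : Continuous π) (h : ∀ g, (‖chi π g‖ ^ 2) = 1) : n = 1 := by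
  have h1 := h 1
  rw [chi_one, Complex.norm_natCast] at h1
  have h2 : n ^ 2 = 1 := by exact_mod_cast h1
  exact (pow_eq_one_iff.1 h2).resolve_right two_ne_zero

end

section

variable {G : Type} [Group G] [TopologicalSpace G] [IsTopologicalGroup G] [CompactSpace G]
  [MeasurableSpace G] [BorelSpace G] (μ : Measure G) [IsProbabilityMeasure μ] [μ.IsHaarMeasure]
  {n : ℕ} {π : G →* Matrix.unitaryGroup (Fin n) ℂ}

include μ

/-- trivial representations which are irreducible have dimension one -/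
theorem dim_one_of_triv (hc : Continuous π) (hs : Schur π) (hn : n ≠ 0) (h : ∀ g, π g = 1) :
    ∀ g, ‖chi π g‖ ^ 2 = 1 := by
  have h1 := int_sq (μ := μ) hc hs hn
  have h2 : ∀ g, chi π g = n := chi_triv' h
  intro g
  simp only [h2] at h1 ⊢
  simpa using h1

/-- a character with finitely many absolute values -/
theorem dim_one_of_finite [ConnectedSpace G] (hc : Continuous π) (hs : Schur π) (hn : n ≠ 0)
    {V : Set ℝ} (hV : V.Finite) (h : ∀ g, ‖chi π g‖ ^ 2 ∈ V) : n = 1 := by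
  have hcont : Continuous fun g => ‖chi π g‖ ^ 2 := (cont_chi hc).norm.pow 2
  have h1 : (Set.range fun g => ‖chi π g‖ ^ 2).Subsingleton := by
    by_contra hcon
    rw [Set.not_subsingleton_iff] at hcon
    exact (isPreconnected_range hcont).infinite_of_nontrivial hcon
      (hV.subset (by rintro _ ⟨g, rfl⟩; exact h g))
  have h2 : ∀ g, ‖chi π g‖ ^ 2 = (n : ℝ) ^ 2 := by
    intro g
    have h3 : ‖chi π (1 : G)‖ ^ 2 = (n : ℝ) ^ 2 := by rw [chi_one, Complex.norm_natCast]
    rw [← h3]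
    exact h1 ⟨g, rfl⟩ ⟨1, rfl⟩
  have h3 := int_sq (μ := μ) hc hs hn
  simp only [h2] at h3
  have h4 : (n : ℝ) ^ 2 = 1 := by simpa using h3
  have h5 : n ^ 2 = 1 := by exact_mod_cast h4
  exact (pow_eq_one_iff.1 h5).resolve_right two_ne_zero

end

section

variable {P : Type*} {N : P → ℕ}

/-- the extreme case of the inequality of Cauchy and Schwarz -/
theorem extreme_case (hN : Sys N) {t c : P → ℂ} (ht : Bc t) (hc : Bc c) {m : ℤ} (hm : m ≠ 0)
    {U : Ultrafilter ℝ} (hU : (U : Filter ℝ) ≤ 𝓝[>] 0)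
    (ht2 : (M N U fun p => ‖t p‖ ^ 2) = 1) (hc2 : (M N U fun p => ‖c p‖ ^ 2) = 1)
    (hr : Tendsto (qt N fun p => (t p * c p).re) (𝓝[>] 0) (𝓝 (-(m : ℝ)))) :
    |(-(m : ℝ))| = 1 ∧ (M N U fun p => ‖df (-(m : ℝ)) t c p‖ ^ 2) = 0 := by
  have h1 : (M N U fun p => (t p * c p).re) = -(m : ℝ) := M_of_tendsto hU hr
  have h2 := edge_le hN hU ht hc ht2.le hc2.le
  rw [h1] at h2
  have h3 : (1 : ℝ) ≤ (-(m : ℝ)) ^ 2 := by
    rw [neg_sq]
    have : 1 ≤ m ^ 2 := by
      have := Int.one_le_abs hm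
      rw [← sq_abs]
      nlinarith
    exact_mod_cast this
  refine ⟨?_, edge_eq hN hU ht hc ht2.le hc2.le h1 h3⟩
  have h4 : |(-(m : ℝ))| ^ 2 = 1 := by rw [sq_abs]; exact le_antisymm h2 h3
  exact (pow_eq_one_iff_of_nonneg (abs_nonneg _) two_ne_zero).1 h4

theorem bd_prod {κ : Type*} (B : Finset κ) {φ : κ → P → ℝ} (h : ∀ b ∈ B, Bd (φ b)) :
    Bd fun p => ∏ b ∈ B, φ b p := by
  classical
  induction B using Finset.induction_on with
  | empty => simpa using Bd.const (P := P) 1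
  | insert a s ha ih =>
    simp only [Finset.prod_insert ha]
    exact (h a (Finset.mem_insert_self _ _)).mul
      (ih fun b hb => h b (Finset.mem_insert_of_mem hb))

theorem bd_poly {f : P → ℝ} (hf : Bd f) (Q : Polynomial ℝ) : Bd fun p => Q.eval (f p) := by
  simp only [Polynomial.eval_eq_sum_range]
  refine Bd.sum _ fun k _ => Bd.const_mul ?_ _
  obtain ⟨C, hC⟩ := hf
  exact ⟨C ^ k, fun p => by
    rw [abs_pow]
    exact pow_le_pow_left₀ (abs_nonneg _) (hC p) k⟩

/-- test functions -/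
theorem M_test (hN : Sys N) {U : Ultrafilter ℝ} (hU : (U : Filter ℝ) ≤ 𝓝[>] 0) {f g φ : P → ℝ}
    (hf : Bd f) (hg : Bd g) (hφ : Bd φ) (h0 : ∀ p, 0 ≤ φ p) (h : (M N U fun p => |f p - g p|) = 0) :
    (M N U fun p => f p * φ p) = M N U fun p => g p * φ p := by
  obtain ⟨C, hC⟩ := hφ
  have hφ : Bd φ := ⟨C, hC⟩
  have hd : Bd fun p => (f p - g p) * φ p := (hf.sub hg).mul hφ
  have h1 : (M N U fun p => C * |f p - g p|) = 0 := by
    rw [M_const_mul hN hU (hf.sub hg).abs, h, mul_zero]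
  have h2 : (M N U fun p => |(f p - g p) * φ p|) = 0 :=
    M_zero_of_le hN hU hd.abs ((hf.sub hg).abs.const_mul _) (fun p => abs_nonneg _) (fun p => by
      rw [abs_mul, mul_comm]
      exact mul_le_mul_of_nonneg_right (hC p) (abs_nonneg _)) h1
  have h3 : (M N U fun p => (f p - g p) * φ p) = 0 := by
    refine le_antisymm ?_ ?_
    · rw [← h2]
      exact M_mono hN hU hd hd.abs fun p => le_abs_self _
    · have h4 := M_mono hN hU hd.neg hd.abs fun p => neg_le_abs _
      rw [h2, M_neg hN hU hd] at h4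
      linarith
  have e : (fun p => (f p - g p) * φ p) = fun p => f p * φ p - g p * φ p := by
    funext p
    ring
  rw [e, M_sub hN hU (hf.mul hφ) (hg.mul hφ)] at h3
  linarith

end

section

variable {K : Type} [Field K] [NumberField K]
variable {ι : Type} [Fintype ι] [DecidableEq ι] {G : ι → Type} [∀ i, Group (G i)]
  [∀ i, TopologicalSpace (G i)] [∀ i, IsTopologicalGroup (G i)] [∀ i, CompactSpace (G i)]
  [∀ i, MeasurableSpace (G i)] [∀ i, BorelSpace (G i)] {μ : ∀ i, Measure (G i)}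
  [∀ i, IsProbabilityMeasure (μ i)] [∀ i, (μ i).IsHaarMeasure]
variable {Q : Type} [Group Q] [TopologicalSpace Q] [IsTopologicalGroup Q] [CompactSpace Q]
  [MeasurableSpace Q] [BorelSpace Q] {ν : Measure Q} [IsProbabilityMeasure ν] [ν.IsHaarMeasure]
variable {x : ∀ i, HeightOneSpectrum (𝓞 K) → G i} {q : HeightOneSpectrum (𝓞 K) → Q}
variable {n : ι → ℕ} {π : ∀ i, G i →* Matrix.unitaryGroup (Fin (n i)) ℂ} {m : ℕ}
  {ψ : Q →* Matrix.unitaryGroup (Fin m) ℂ}

/-- Dirichlet means -/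
abbrev DM (φ : HeightOneSpectrum (𝓞 K) → ℝ) (c : ℝ) : Prop :=
  Tendsto (qt (nm K) φ) (𝓝[>] 0) (𝓝 c)

/-- the matrices -/
noncomputable def AT (π : ∀ i, G i →* Matrix.unitaryGroup (Fin (n i)) ℂ)
    (x : ∀ i, HeightOneSpectrum (𝓞 K) → G i) (ψ : Q →* Matrix.unitaryGroup (Fin m) ℂ)
    (q : HeightOneSpectrum (𝓞 K) → Q) (v : HeightOneSpectrum (𝓞 K)) :
    Matrix ((∀ i, Fin (n i)) × Fin m) ((∀ i, Fin (n i)) × Fin m) ℂ :=
  bk (fun i => (π i (x i v) : Matrix (Fin (n i)) (Fin (n i)) ℂ)) ⊗ₖ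
    (ψ (q v) : Matrix (Fin m) (Fin m) ℂ)

theorem AT_mem (v : HeightOneSpectrum (𝓞 K)) : AT π x ψ q v ∈ Matrix.unitaryGroup _ ℂ :=
  Matrix.kronecker_mem_unitary (bk_unitary fun i => (π i (x i v)).2) (ψ (q v)).2

theorem AT_trace (v : HeightOneSpectrum (𝓞 K)) :
    (AT π x ψ q v).trace = (∏ i, chi (π i) (x i v)) * chi ψ (q v) := by
  unfold AT
  rw [Matrix.trace_kronecker, bk_trace]
  rfl

/-- the hypotheses -/
structure HY (ν : Measure Q) (x : ∀ i, HeightOneSpectrum (𝓞 K) → G i)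
    (q : HeightOneSpectrum (𝓞 K) → Q) : Prop where
  rs : ∀ (i : ι) (n : ℕ) (π : G i →* Matrix.unitaryGroup (Fin n) ℂ), Continuous π → Schur π →
    1 < n → DM (fun v => ‖chi π (x i v)‖ ^ 2) 1
  nf : ∀ (i : ι) (n : ℕ) (π : G i →* Matrix.unitaryGroup (Fin n) ℂ), Continuous π → Schur π →
    1 < n → ∀ B : Finset ℝ, ¬ DM (fun v => ∏ b ∈ B, |‖chi π (x i v)‖ - b|) 0
  fr : Law q ν
  ch : ∀ (n : ι → ℕ) (π : ∀ i, G i →* Matrix.unitaryGroup (Fin (n i)) ℂ) (m : ℕ)
    (ψ : Q →* Matrix.unitaryGroup (Fin m) ℂ), (∀ i, Continuous (π i)) → (∀ i, n i = 1) →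
    (∃ i g, π i g ≠ 1) → Continuous ψ → Schur ψ → m ≠ 0 →
    Tendsto (mn fun v => (∏ i, chi (π i) (x i v)) * chi ψ (q v)) atTop (𝓝 0)
  cn : ∀ (n : ι → ℕ) (π : ∀ i, G i →* Matrix.unitaryGroup (Fin (n i)) ℂ) (m : ℕ)
    (ψ : Q →* Matrix.unitaryGroup (Fin m) ℂ), (∀ i, Continuous (π i) ∧ Schur (π i)) →
    (∀ i, n i ≠ 0) → (∃ i, 1 < n i) → Continuous ψ → Schur ψ → m ≠ 0 →
    ∀ τ : ℝ, ∃ Λ : ℂ → ℂ, MeromorphicAt Λ (1 + τ * I) ∧
      ∀ᶠ s in 𝓝 ((1 : ℂ) + τ * I), (1 : ℝ) < s.re → Λ s = LU (AT π x ψ q) s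
  nc : ∀ i j, i ≠ j → ∀ (a : ℕ) (π : G i →* Matrix.unitaryGroup (Fin a) ℂ) (b : ℕ)
    (π' : G j →* Matrix.unitaryGroup (Fin b) ℂ), Continuous π → Schur π → 1 < a →
    Continuous π' → Schur π' → 1 < b →
    ¬ DM (fun v => |‖chi π (x i v)‖ ^ 2 - ‖chi π' (x j v)‖ ^ 2|) 0

/-- the exponents of one factor and of the others -/
def ex (i : ι) (j : ι) : ℕ := if j = i then 0 else 1

/-- the other factors -/
noncomputable def ow (π : ∀ i, G i →* Matrix.unitaryGroup (Fin (n i)) ℂ)
    (x : ∀ i, HeightOneSpectrum (𝓞 K) → G i) (ψ : Q →* Matrix.unitaryGroup (Fin m) ℂ)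
    (q : HeightOneSpectrum (𝓞 K) → Q) (i : ι) (τ : ℝ) (v : HeightOneSpectrum (𝓞 K)) : ℂ :=
  (∏ j ∈ Finset.univ.erase i, chi (π j) (x j v)) * chi ψ (q v) *
    ((nm K v : ℕ) : ℂ) ^ (-(τ * I : ℂ))

theorem mul_ow (i : ι) (τ : ℝ) (v : HeightOneSpectrum (𝓞 K)) :
    chi (π i) (x i v) * ow π x ψ q i τ v =
      (AT π x ψ q v).trace * ((nm K v : ℕ) : ℂ) ^ (-(τ * I : ℂ)) := by
  rw [AT_trace, ← Finset.mul_prod_erase Finset.univ (fun j => chi (π j) (x j v))
    (Finset.mem_univ i)]
  unfold ow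
  ring

theorem sq_fst (i : ι) (v : HeightOneSpectrum (𝓞 K)) :
    ‖chi (π i) (x i v)‖ ^ 2 = pw π x ψ q (Pi.single i 1) 0 v := by
  unfold pw
  rw [pow_zero, mul_one, Finset.prod_eq_single i]
  · rw [Pi.single_eq_same, pow_one]
  · intro j _ hj
    rw [Pi.single_eq_of_ne hj, pow_zero]
  · intro h
    exact absurd (Finset.mem_univ _) h

theorem sq_ow (i : ι) (τ : ℝ) (v : HeightOneSpectrum (𝓞 K)) :
    ‖ow π x ψ q i τ v‖ ^ 2 = pw π x ψ q (ex i) 1 v := by
  unfold ow pw
  rw [norm_mul, norm_mul, norm_cpow_I (nm_pos v), mul_one, norm_prod, mul_pow, pow_one,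
    ← Finset.prod_pow, ← Finset.mul_prod_erase Finset.univ
      (fun j => (‖chi (π j) (x j v)‖ ^ 2) ^ (ex i j)) (Finset.mem_univ i)]
  congr 1
  unfold ex
  rw [if_pos rfl, pow_zero, one_mul]
  refine Finset.prod_congr rfl fun j hj => ?_
  rw [if_neg (Finset.ne_of_mem_erase hj), pow_one]

theorem bc_fst (i : ι) : Bc fun v => chi (π i) (x i v) := ⟨n i, fun v => norm_chi _ _⟩

theorem bc_ow (i : ι) (τ : ℝ) : Bc (ow π x ψ q i τ) := by
  obtain ⟨C, hC⟩ := bd_pw (π := π) (x := x) (ψ := ψ) (q := q) (ex i) 1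
  refine ⟨max C 1, fun v => ?_⟩
  have h1 := hC v
  rw [abs_of_nonneg (pw_nonneg _ _ v), ← sq_ow i τ v] at h1
  by_contra hcon
  push Not at hcon
  have h2 := le_max_left C 1
  have h3 := le_max_right C 1
  nlinarith [norm_nonneg (ow π x ψ q i τ v)]

/-- products of integrals -/
theorem prod_int (hπ : ∀ i, Continuous (π i) ∧ Schur (π i)) (hn : ∀ i, n i ≠ 0) {e : ι → ℕ}
    (he : ∀ i, e i = 0 ∨ e i = 1) : (∏ i, ∫ g, (‖chi (π i) g‖ ^ 2) ^ (e i) ∂(μ i)) = 1 := by
  refine Finset.prod_eq_one fun i _ => ?_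
  rcases he i with h | h
  · rw [h]
    simp
  · rw [h]
    simp only [pow_one]
    exact int_sq (hπ i).1 (hπ i).2 (hn i)

variable [Finite Q]

/-- **The step of the induction: the order is zero.** -/
theorem HY.order (H : HY ν x q) {J : Finset ι} (ih : ∀ J', J' ⊂ J → Ind μ ν x q J')
    (hπ : ∀ i, Continuous (π i) ∧ Schur (π i)) (hψ : Continuous ψ) (hψs : Schur ψ)
    (hn : ∀ i, n i ≠ 0) (hm : m ≠ 0) (hJ : ∀ i, i ∉ J → ∀ g, π i g = 1)
    (hne : ∃ i, 1 < n i) {τ : ℝ} {d : ℤ}
    (hd : Tendsto (qt (nm K) fun v => ((AT π x ψ q v).trace *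
      ((nm K v : ℕ) : ℂ) ^ (-(τ * I : ℂ))).re) (𝓝[>] 0) (𝓝 (-(d : ℝ)))) : d = 0 := by
  by_contra hd0
  have hN := sysF K
  have hc : ∀ i, Continuous (π i) := fun i => (hπ i).1
  have hone : ∀ i, i ∉ J → ∀ g, ‖chi (π i) g‖ ^ 2 = 1 := fun i hi =>
    dim_one_of_triv (μ i) (hπ i).1 (hπ i).2 (hn i) (hJ i hi)
  have hdim : ∀ i, n i = 1 → ∀ g, ‖chi (π i) g‖ ^ 2 = 1 := fun i hi => sq_of_dim_one hi
  obtain ⟨i, hi1⟩ := hne
  have hi : i ∈ J := by
    by_contra hcon
    have h1 := dim_one_of_abs (hc i) (hone i hcon)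
    omega
  have hsub : J.erase i ⊂ J := Finset.erase_ssubset hi
  have hex : ∀ j, j ∉ J.erase i → ∀ g, (‖chi (π j) g‖ ^ 2) ^ (ex i j) = 1 := by
    intro j hj g
    unfold ex
    split_ifs with h
    · rw [pow_zero]
    · rw [hone j (fun h' => hj (Finset.mem_erase.2 ⟨h, h'⟩)), pow_one]
  have hψ1 : ∫ g, (‖chi ψ g‖ ^ 2) ^ 1 ∂ν = 1 := by
    simp only [pow_one]
    exact int_sq hψ hψs hm
  have e1 : (fun v => (chi (π i) (x i v) * ow π x ψ q i τ v).re) = fun v =>
      ((AT π x ψ q v).trace * ((nm K v : ℕ) : ℂ) ^ (-(τ * I : ℂ))).re :=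
    funext fun v => by rw [mul_ow]
  rw [← e1] at hd
  -- the extreme case
  have key : ∀ U : Ultrafilter ℝ, (U : Filter ℝ) ≤ 𝓝[>] 0 → |(-(d : ℝ))| = 1 ∧
      (M (nm K) U fun v => ‖df (-(d : ℝ)) (fun v => chi (π i) (x i v)) (ow π x ψ q i τ) v‖ ^ 2) =
        0 := by
    intro U hU
    refine extreme_case hN (bc_fst i) (bc_ow i τ) hd0 hU
      (M_of_tendsto hU (H.rs i _ (π i) (hπ i).1 (hπ i).2 hi1)) ?_ hd
    have e2 : (fun v => ‖ow π x ψ q i τ v‖ ^ 2) = pw π x ψ q (ex i) 1 :=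
      funext fun v => sq_ow i τ v
    rw [e2, ind_pow (ih _ hsub) hc hψ (ex i) 1 hex hU, hψ1, mul_one]
    refine prod_int hπ hn fun j => ?_
    unfold ex
    split_ifs
    · exact Or.inl rfl
    · exact Or.inr rfl
  have hbf : Bd fun v => ‖chi (π i) (x i v)‖ ^ 2 := (bc_fst (π := π) (x := x) i).norm.sq
  have hbo : Bd fun v => ‖ow π x ψ q i τ v‖ ^ 2 := (bc_ow i τ).norm.sq
  have hab : ∀ U : Ultrafilter ℝ, (U : Filter ℝ) ≤ 𝓝[>] 0 →
      (M (nm K) U fun v => |‖chi (π i) (x i v)‖ ^ 2 - ‖ow π x ψ q i τ v‖ ^ 2|) = 0 := fun U hU =>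
    edge_norm hN hU (bc_fst i) (bc_ow i τ) (key U hU).1 (key U hU).2
  obtain ⟨W, hW⟩ := Ultrafilter.exists_le (𝓝[>] (0 : ℝ))
  by_cases h1 : ∃ k, k ≠ i ∧ 1 < n k
  · obtain ⟨k, hki, hk1⟩ := h1
    have hkJ : k ∈ J := by
      by_contra hcon
      have h1 := dim_one_of_abs (hc k) (hone k hcon)
      omega
    have hk : k ∈ J.erase i := Finset.mem_erase.2 ⟨hki, hkJ⟩
    by_cases h2 : (J.erase i).erase k = ∅
    · -- two families
      have hall : ∀ j, j ≠ i → j ≠ k → ∀ g, ‖chi (π j) g‖ ^ 2 = 1 := fun j hj hjk =>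
        hone j fun h' => by
          have : j ∈ (J.erase i).erase k :=
            Finset.mem_erase.2 ⟨hjk, Finset.mem_erase.2 ⟨hj, h'⟩⟩
          rw [h2] at this
          exact absurd this (Finset.notMem_empty _)
      have hsub' : ({i} : Finset ι) ⊂ J := by
        refine (Finset.ssubset_iff_of_subset (Finset.singleton_subset_iff.2 hi)).2 ⟨k, hkJ, ?_⟩
        rw [Finset.mem_singleton]
        exact hki
      have h3 := M_test hN hW hbf hbo (bd_pw (π := π) (x := x) (ψ := ψ) (q := q) 0 1)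
        (fun v => pw_nonneg 0 1 v) (hab W hW)
      have e3 : (fun v => ‖chi (π i) (x i v)‖ ^ 2 * pw π x ψ q 0 1 v) =
          pw π x ψ q (Pi.single i 1) 1 := by
        funext v
        rw [sq_fst (ψ := ψ) (q := q), pw_mul, add_zero, zero_add]
      have e4 : (fun v => ‖ow π x ψ q i τ v‖ ^ 2 * pw π x ψ q 0 1 v) =
          pw π x ψ q (ex i) 2 := by
        funext v
        rw [sq_ow, pw_mul, add_zero]
      rw [e3, e4, ind_pow (ih _ hsub) hc hψ (ex i) 2 hex hW,
        ind_pow (ih _ hsub') hc hψ (Pi.single i 1) 1 (fun j hj g => by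
          rw [Pi.single_eq_of_ne (fun h => hj (Finset.mem_singleton.2 h)), pow_zero]) hW,
        prod_int hπ hn (fun j => by
          by_cases hj : j = i
          · subst hj
            exact Or.inr (Pi.single_eq_same _ _)
          · exact Or.inl (Pi.single_eq_of_ne hj _)),
        prod_int hπ hn (fun j => by
          unfold ex
          split_ifs
          · exact Or.inl rfl
          · exact Or.inr rfl), hψ1, one_mul, one_mul] at h3
      have h4 : ∀ g, ‖chi ψ g‖ ^ 2 = 1 := const_of_sq (μ := ν)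
        ((cont_chi hψ).norm.pow 2) (by simpa using hψ1) h3.symm
      have h5 : ∀ v, ‖ow π x ψ q i τ v‖ ^ 2 = ‖chi (π k) (x k v)‖ ^ 2 := by
        intro v
        rw [sq_ow]
        unfold pw
        rw [h4, one_pow, mul_one, Finset.prod_eq_single k]
        · unfold ex
          rw [if_neg hki, pow_one]
        · intro j _ hj
          unfold ex
          split_ifs with hji
          · rw [pow_zero]
          · rw [hall j hji hj, pow_one]
        · intro h
          exact absurd (Finset.mem_univ _) h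
      refine H.nc i k hki.symm _ (π i) _ (π k) (hc i) (hπ i).2 hi1 (hc k) (hπ k).2
        hk1 (tendsto_of_ultra fun U hU => ?_)
      have h6 := hab U hU
      simp only [h5] at h6
      have h7 : Bd fun v => |‖chi (π i) (x i v)‖ ^ 2 - ‖chi (π k) (x k v)‖ ^ 2| :=
        (hbf.sub (bc_fst (π := π) (x := x) k).norm.sq).abs
      have h8 := M_lim hN hU h7
      rwa [h6] at h8
    · -- at least three families
      obtain ⟨l, hl⟩ := Finset.nonempty_iff_ne_empty.2 h2
      have hlk : l ≠ k := (Finset.mem_erase.1 hl).1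
      have hli : l ≠ i := (Finset.mem_erase.1 (Finset.mem_erase.1 hl).2).1
      have hlJ : l ∈ J := (Finset.mem_erase.1 (Finset.mem_erase.1 hl).2).2
      have hsub' : ({i, k} : Finset ι) ⊂ J := by
        refine (Finset.ssubset_iff_of_subset ?_).2 ⟨l, hlJ, ?_⟩
        · intro j hj
          rw [Finset.mem_insert, Finset.mem_singleton] at hj
          rcases hj with rfl | rfl
          · exact hi
          · exact hkJ
        · rw [Finset.mem_insert, Finset.mem_singleton, not_or]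
          exact ⟨hli, hlk⟩
      have h3 := M_test hN hW hbf hbo
        (bd_pw (π := π) (x := x) (ψ := ψ) (q := q) (Pi.single k 1) 0)
        (fun v => pw_nonneg _ _ v) (hab W hW)
      have e3 : (fun v => ‖chi (π i) (x i v)‖ ^ 2 * pw π x ψ q (Pi.single k 1) 0 v) =
          pw π x ψ q (Pi.single i 1 + Pi.single k 1) 0 := by
        funext v
        rw [sq_fst (ψ := ψ) (q := q), pw_mul]
      have e4 : (fun v => ‖ow π x ψ q i τ v‖ ^ 2 * pw π x ψ q (Pi.single k 1) 0 v) =
          pw π x ψ q (ex i + Pi.single k 1) 1 := by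
        funext v
        rw [sq_ow, pw_mul, add_zero]
      have hψ0 : ∫ g, (‖chi ψ g‖ ^ 2) ^ 0 ∂ν = 1 := by simp
      rw [e3, e4, ind_pow (ih _ hsub) hc hψ (ex i + Pi.single k 1) 1 (fun j hj g => by
          by_cases hjk : j = k
          · subst hjk
            exact absurd hk hj
          · rw [Pi.add_apply, Pi.single_eq_of_ne hjk, add_zero]
            exact hex j hj g) hW,
        ind_pow (ih _ hsub') hc hψ (Pi.single i 1 + Pi.single k 1) 0 (fun j hj g => by
          rw [Finset.mem_insert, Finset.mem_singleton, not_or] at hj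
          rw [Pi.add_apply, Pi.single_eq_of_ne hj.1, Pi.single_eq_of_ne hj.2, add_zero,
            pow_zero]) hW, hψ1, hψ0, mul_one, mul_one,
        prod_int hπ hn (fun j => by
          by_cases hj : j = i
          · subst hj
            right
            rw [Pi.add_apply, Pi.single_eq_same, Pi.single_eq_of_ne hki.symm, add_zero]
          · by_cases hjk : j = k
            · subst hjk
              right
              rw [Pi.add_apply, Pi.single_eq_same, Pi.single_eq_of_ne hj, zero_add]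
            · left
              rw [Pi.add_apply, Pi.single_eq_of_ne hj, Pi.single_eq_of_ne hjk, add_zero]),
        ← Finset.mul_prod_erase Finset.univ _ (Finset.mem_univ k)] at h3
      have h4 : ∏ j ∈ Finset.univ.erase k, ∫ g, (‖chi (π j) g‖ ^ 2) ^
          ((ex i + Pi.single k 1 : ι → ℕ) j) ∂(μ j) = 1 := by
        refine Finset.prod_eq_one fun j hj => ?_
        rw [Pi.add_apply, Pi.single_eq_of_ne (Finset.ne_of_mem_erase hj), add_zero]
        unfold ex
        split_ifs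
        · simp
        · simp only [pow_one]
          exact int_sq (hπ j).1 (hπ j).2 (hn j)
      have h5 : (ex i + Pi.single k 1 : ι → ℕ) k = 2 := by
        rw [Pi.add_apply, Pi.single_eq_same]
        unfold ex
        rw [if_neg hki]
      rw [h4, mul_one, h5] at h3
      have h6 : ∀ g, ‖chi (π k) g‖ ^ 2 = 1 := const_of_sq (μ := μ k)
        ((cont_chi (hc k)).norm.pow 2) (int_sq (hπ k).1 (hπ k).2 (hn k)) h3.symm
      have h7 := dim_one_of_abs (hc k) h6
      omega
  · -- one character of higher degree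
    push Not at h1
    have hall : ∀ j, j ≠ i → ∀ g, ‖chi (π j) g‖ ^ 2 = 1 := fun j hj =>
      hdim j (by
        have := h1 j hj
        have := hn j
        omega)
    have hV : (Set.range fun g : Q => ‖chi ψ g‖).Finite := Set.finite_range _
    set B := hV.toFinset with hVd
    set P : Polynomial ℝ := ∏ b ∈ B, (Polynomial.X - Polynomial.C (b ^ 2)) with hP
    have hPe : ∀ t, P.eval t = ∏ b ∈ B, (t - b ^ 2) := fun t => by
      rw [hP, Polynomial.eval_prod]
      simp
    have hB0 : ∀ b ∈ B, 0 ≤ b := by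
      intro b hb
      rw [hVd, Set.Finite.mem_toFinset] at hb
      obtain ⟨g, rfl⟩ := hb
      exact norm_nonneg _
    have ho : ∀ v, (P ^ 2).eval (‖ow π x ψ q i τ v‖ ^ 2) = 0 := by
      intro v
      have h2 : ‖ow π x ψ q i τ v‖ ^ 2 = ‖chi ψ (q v)‖ ^ 2 := by
        rw [sq_ow]
        unfold pw
        rw [pow_one, Finset.prod_eq_one, one_mul]
        intro j _
        unfold ex
        split_ifs with hj
        · rw [pow_zero]
        · rw [hall j hj, pow_one]
      rw [h2, Polynomial.eval_pow, hPe, Finset.prod_eq_zero (i := ‖chi ψ (q v)‖)]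
      · ring
      · rw [hVd, Set.Finite.mem_toFinset]
        exact ⟨q v, rfl⟩
      · ring
    refine H.nf i _ (π i) (hc i) (hπ i).2 hi1 B (tendsto_of_ultra fun U hU => ?_)
    have h2 : (M (nm K) U fun v => (P ^ 2).eval (‖chi (π i) (x i v)‖ ^ 2)) = 0 := by
      rw [M_poly hN hU hbf]
      have h3 := M_poly hN hU hbo (P ^ 2)
      simp only [ho] at h3
      rw [M_const hN hU] at h3
      rw [h3]
      refine Finset.sum_congr rfl fun k _ => ?_
      rw [edge_mom hN hU (bc_fst i) (bc_ow i τ) (key U hU).1 (key U hU).2 k]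
    have hbn : Bd fun v => ‖chi (π i) (x i v)‖ := (bc_fst (π := π) (x := x) i).norm
    have hbP : Bd fun v => P.eval (‖chi (π i) (x i v)‖ ^ 2) := bd_poly hbf P
    have h3 : (M (nm K) U fun v => P.eval (‖chi (π i) (x i v)‖ ^ 2) ^ 2) = 0 := by
      simpa only [Polynomial.eval_pow] using h2
    have hbq : Bd fun v => ∏ b ∈ B, |‖chi (π i) (x i v)‖ - b| :=
      bd_prod B fun b _ => (hbn.sub (Bd.const b)).abs
    have h5 : ∀ v, (∏ b ∈ B, |‖chi (π i) (x i v)‖ - b|) ^ 2 ≤
        |P.eval (‖chi (π i) (x i v)‖ ^ 2)| := by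
      intro v
      rw [hPe, Finset.abs_prod, ← Finset.prod_pow]
      refine Finset.prod_le_prod (fun b _ => sq_nonneg _) fun b hb => ?_
      have e5 : ‖chi (π i) (x i v)‖ ^ 2 - b ^ 2 =
          (‖chi (π i) (x i v)‖ + b) * (‖chi (π i) (x i v)‖ - b) := by ring
      rw [e5, abs_mul, sq]
      refine mul_le_mul_of_nonneg_right ?_ (abs_nonneg _)
      have h6 := norm_nonneg (chi (π i) (x i v))
      have h7 := hB0 b hb
      rw [abs_of_nonneg (by linarith : 0 ≤ ‖chi (π i) (x i v)‖ + b), abs_le]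
      constructor <;> linarith
    have h6 : (M (nm K) U fun v => |P.eval (‖chi (π i) (x i v)‖ ^ 2)|) = 0 :=
      M_zero_of_sq hN hU hbP.abs (by simpa only [sq_abs] using h3)
    have h7 := M_zero_of_le hN hU hbq.sq hbP.abs (fun v => sq_nonneg _) h5 h6
    have h8 := M_zero_of_sq hN hU hbq h7
    have h9 := M_lim hN hU hbq
    rwa [h8] at h9

/-- **Independence.** -/
theorem HY.ind (H : HY ν x q) (J : Finset ι) : Ind μ ν x q J := by
  induction J using Finset.strongInduction with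
  | H J ih =>
    intro n π m ψ hπ hJ hψ hψs
    by_cases hA : ∃ i ∈ J, ∀ g, π i g = 1
    · obtain ⟨i, hi, h1⟩ := hA
      refine ih (J.erase i) (Finset.erase_ssubset hi) n π m ψ hπ (fun j hj => ?_) hψ hψs
      by_cases hji : j = i
      · subst hji
        exact h1
      · exact hJ j fun h' => hj (Finset.mem_erase.2 ⟨hji, h'⟩)
    push Not at hA
    by_cases hn : ∃ i, n i = 0
    · obtain ⟨i, hi⟩ := hn
      have h1 : ∀ g, chi (π i) g = 0 := by
        intro g
        have h2 := norm_chi (π i) g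
        have h3 : ((n i : ℕ) : ℝ) = 0 := by exact_mod_cast hi
        exact norm_le_zero_iff.1 (h2.trans h3.le)
      have e1 : (fun v => (∏ i, chi (π i) (x i v)) * chi ψ (q v)) = fun _ => (0 : ℂ) := by
        funext v
        rw [Finset.prod_eq_zero (Finset.mem_univ i) (h1 _), zero_mul]
      have e2 : (∏ i, ∫ g, chi (π i) g ∂(μ i)) = 0 :=
        Finset.prod_eq_zero (Finset.mem_univ i) (by simp [h1])
      rw [e1, e2, zero_mul]
      refine tendsto_const_nhds.congr fun N => ?_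
      unfold mn
      simp
    push Not at hn
    by_cases hm : m = 0
    · subst hm
      have e1 : (fun v => (∏ i, chi (π i) (x i v)) * chi ψ (q v)) = fun _ => (0 : ℂ) := by
        funext v
        rw [chi_zero, mul_zero]
      have e2 : ∫ g, chi ψ g ∂ν = 0 := by simp [chi_zero]
      rw [e1, e2, mul_zero]
      refine tendsto_const_nhds.congr fun N => ?_
      unfold mn
      simp
    rcases J.eq_empty_or_nonempty with rfl | hne
    · have h1 : ∀ i g, chi (π i) g = n i := fun i g =>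
        chi_triv' (hJ i (Finset.notMem_empty i)) g
      have h2 := (law_c H.fr (cont_chi hψ) fun g h => chi_cls ψ g h).const_mul
        (∏ i, (n i : ℂ))
      have e2 : (∏ i, ∫ g, chi (π i) g ∂(μ i)) = ∏ i, (n i : ℂ) := by
        refine Finset.prod_congr rfl fun i _ => ?_
        simp [h1]
      rw [e2]
      refine h2.congr fun N => ?_
      rw [← mn_mul]
      congr 1
      funext v
      simp only [h1]
    · obtain ⟨i, hi⟩ := hne
      have e2 : (∏ i, ∫ g, chi (π i) g ∂(μ i)) = 0 :=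
        Finset.prod_eq_zero (Finset.mem_univ i) (int_chi (hπ i).1 (hπ i).2 (hA i hi))
      rw [e2, zero_mul]
      by_cases hd : ∃ j, 1 < n j
      · have h3 := avg_LU (K := K) (A := AT π x ψ q) AT_mem (fun τ => by
          obtain ⟨Λ, h4, h5⟩ := H.cn n π m ψ hπ hn hd hψ hψs hm τ
          obtain ⟨d, h6, h7⟩ := order_LU AT_mem h4 h5
          have h8 := H.order ih hπ hψ hψs hn hm hJ hd h7
          subst h8
          exact ⟨Λ, h4, h5, h6⟩)
        refine h3.congr fun N => ?_
        congr 1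
        funext v
        exact AT_trace v
      · push Not at hd
        exact H.ch n π m ψ (fun i => (hπ i).1) (fun j => by
          have := hd j
          have := hn j
          omega) ⟨i, hA i hi⟩ hψ hψs hm

end

end Pool.Agent.Y798.JL
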